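import Pool.Agent.H841Z.Mal.Defs
import Pool.Agent.Helper548.HB.RealZ
set_option autoImplicit false

/-! Groups acting simply on a product of two trees, described by two length functions. -/

namespace Pool.Agent.H841Z.Mal

open Pool.Agent.Helper548.HB

/-- two tree-like length functions on a group -/
structure PD (G : Type) [Group G] where
  l : Bool → G → ℕ
  l_one : ∀ b, l b 1 = 0
  l_inv : ∀ b g, l b g⁻¹ = l b g
  l_mul : ∀ b g h, l b (g * h) ≤ l b g + l b h
  four : ∀ b g h k, min ((l b g : ℤ) + l b k - l b (g⁻¹ * k)) ((l b k : ℤ) + l b h - l b (k⁻¹ * h))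
    ≤ (l b g : ℤ) + l b h - l b (g⁻¹ * h)
  fac : ∀ b g, 1 ≤ l b g → ∃ p : G, l b p ≤ 1 ∧ l (!b) p = 0 ∧ l b (p⁻¹ * g) + 1 ≤ l b g
  fin : {g | l false g + l true g ≤ 1}.Finite

namespace PD
variable {G : Type} [Group G] (D : PD G)

/-- pseudo-distance -/
def d (b : Bool) (g h : G) : ℕ := D.l b (g⁻¹ * h)

theorem d_self (b : Bool) (g : G) : D.d b g g = 0 := by simp [d, D.l_one]

theorem d_comm (b : Bool) (g h : G) : D.d b g h = D.d b h g := by
  unfold d
  rw [← D.l_inv b (g⁻¹ * h)]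
  simp

theorem d_tri (b : Bool) (g h k : G) : D.d b g k ≤ D.d b g h + D.d b h k := by
  unfold d
  have := D.l_mul b (g⁻¹ * h) (h⁻¹ * k)
  rwa [show g⁻¹ * h * (h⁻¹ * k) = g⁻¹ * k by group] at this

theorem d_mul (b : Bool) (a g h : G) : D.d b (a * g) (a * h) = D.d b g h := by
  unfold d
  congr 1
  group

theorem d_one (b : Bool) (g : G) : D.d b 1 g = D.l b g := by simp [d]

theorem d_step (b : Bool) (g p : G) : D.d b g (g * p) = D.l b p := by simp [d]

theorem d_four (b : Bool) (o g h k : G) :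
    min ((D.d b o g : ℤ) + D.d b o k - D.d b g k) ((D.d b o k : ℤ) + D.d b o h - D.d b k h)
    ≤ (D.d b o g : ℤ) + D.d b o h - D.d b g h := by
  have := D.four b (o⁻¹ * g) (o⁻¹ * h) (o⁻¹ * k)
  have e : ∀ x y : G, (o⁻¹ * x)⁻¹ * (o⁻¹ * y) = x⁻¹ * y := fun x y => by group
  simp only [e] at this
  exact this

theorem d_congr (b : Bool) {g g' h h' : G} (h1 : D.d b g g' = 0) (h2 : D.d b h h' = 0) :
    D.d b g h = D.d b g' h' := by
  have a1 := D.d_tri b g g' h
  have a2 := D.d_tri b g' h' h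
  have a3 := D.d_tri b g' g h'
  have a4 := D.d_tri b g h h'
  have a5 := D.d_comm b g g'
  have a6 := D.d_comm b h h'
  omega

/-- the generating set -/
noncomputable def S : Finset G := D.fin.toFinset

theorem mem_S (g : G) : g ∈ D.S ↔ D.l false g + D.l true g ≤ 1 := by simp [S]

theorem exists_word (n : ℕ) : ∀ g : G, D.l false g + D.l true g ≤ n →
    ∃ w : List G, w.length ≤ n + 1 ∧ (∀ x ∈ w, x ∈ D.S ∨ x⁻¹ ∈ D.S) ∧ w.prod = g := by
  induction n with
  | zero =>
    intro g hg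
    exact ⟨[g], by simp, by simp [mem_S]; omega, by simp⟩
  | succ n ih =>
    intro g hg
    by_cases h0 : D.l false g + D.l true g ≤ n
    · obtain ⟨w, h1, h2, h3⟩ := ih g h0
      exact ⟨w, by omega, h2, h3⟩
    · have : ∃ b, 1 ≤ D.l b g := by
        by_cases h : 1 ≤ D.l false g
        · exact ⟨_, h⟩
        · exact ⟨true, by omega⟩
      obtain ⟨b, hb⟩ := this
      obtain ⟨p, p1, p2, p3⟩ := D.fac b g hb
      have p4 := D.l_mul (!b) p⁻¹ g
      rw [D.l_inv, p2] at p4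
      have hp : p ∈ D.S := by
        rw [mem_S]; cases b <;> simp at p1 p2 ⊢ <;> omega
      have : D.l false (p⁻¹ * g) + D.l true (p⁻¹ * g) ≤ n := by
        cases b <;> simp at p3 p4 ⊢ <;> omega
      obtain ⟨w, h1, h2, h3⟩ := ih _ this
      refine ⟨p :: w, by simp; omega, ?_, by simp [h3]⟩
      intro x hx
      rcases List.mem_cons.1 hx with rfl | hx
      · exact Or.inl hp
      · exact h2 x hx

theorem word_le (w : List G) (hw : ∀ x ∈ w, x ∈ D.S ∨ x⁻¹ ∈ D.S) :
    D.l false w.prod + D.l true w.prod ≤ w.length := by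
  induction w with
  | nil => simp [D.l_one]
  | cons x w ih =>
    have h1 := ih (fun y hy => hw y (by simp [hy]))
    have h2 : D.l false x + D.l true x ≤ 1 := by
      rcases hw x (by simp) with h | h
      · exact (D.mem_S _).1 h
      · have := (D.mem_S _).1 h
        rwa [D.l_inv, D.l_inv] at this
    have h3 := D.l_mul false x w.prod
    have h4 := D.l_mul true x w.prod
    simp only [List.prod_cons, List.length_cons]
    omega

theorem closure_S : Subgroup.closure (D.S : Set G) = ⊤ := by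
  rw [eq_top_iff]
  intro g _
  obtain ⟨w, -, h2, h3⟩ := D.exists_word _ g le_rfl
  rw [← h3]
  apply Subgroup.list_prod_mem
  intro x hx
  rcases h2 x hx with h | h
  · exact Subgroup.subset_closure h
  · exact (Subgroup.inv_mem_iff _).1 (Subgroup.subset_closure h)

theorem wlen_le (g : G) : wlen D.S g ≤ D.l false g + D.l true g + 1 := by
  obtain ⟨w, h1, h2, h3⟩ := D.exists_word _ g le_rfl
  have : wlen D.S g ≤ w.length := Nat.sInf_le ⟨w, rfl, h2, h3⟩
  exact this.trans h1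

theorem le_wlen (g : G) : D.l false g + D.l true g ≤ wlen D.S g := by
  obtain ⟨w, h1, h2, h3⟩ := D.exists_word _ g le_rfl
  have hne : {n | ∃ l : List G, l.length = n ∧ (∀ x ∈ l, x ∈ D.S ∨ x⁻¹ ∈ D.S) ∧
      l.prod = g}.Nonempty := ⟨_, w, rfl, h2, h3⟩
  obtain ⟨v, k1, k2, k3⟩ := Nat.sInf_mem hne
  have := D.word_le v k2
  rw [k3, k1] at this
  exact this

theorem wd_le (g h : G) : wd D.S g h ≤ D.d false g h + D.d true g h + 1 := by
  unfold wd d
  exact_mod_cast D.wlen_le _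

theorem le_wd (g h : G) : (D.d false g h : ℝ) + D.d true g h ≤ wd D.S g h := by
  unfold wd d
  exact_mod_cast D.le_wlen _

/-- splitting of an element -/
theorem split (n : ℕ) : ∀ g : G, D.l true g ≤ n →
    ∃ u : G, D.l false u = 0 ∧ D.l true (u⁻¹ * g) = 0 := by
  induction n with
  | zero => intro g hg; exact ⟨1, D.l_one _, by simpa using hg⟩
  | succ n ih =>
    intro g hg
    by_cases h0 : D.l true g ≤ n
    · exact ih g h0
    · obtain ⟨p, -, p2, p3⟩ := D.fac true g (by omega)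
      obtain ⟨u, u1, u2⟩ := ih (p⁻¹ * g) (by omega)
      refine ⟨p * u, ?_, ?_⟩
      · have := D.l_mul false p u
        simp at p2
        omega
      · rwa [show (p * u)⁻¹ * g = u⁻¹ * (p⁻¹ * g) by group]

theorem exists_pt (a b : G) : ∃ x, D.d false x a = 0 ∧ D.d true x b = 0 := by
  obtain ⟨u, u1, u2⟩ := D.split _ (a⁻¹ * b) le_rfl
  refine ⟨a * u, ?_, ?_⟩
  · rw [D.d_comm, D.d_step]; exact u1
  · unfold d
    rwa [show (a * u)⁻¹ * b = u⁻¹ * (a⁻¹ * b) by group]

/-- geodesic sequences -/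
theorem exists_geo (b : Bool) (g : G) : ∃ c : ℕ → G, c 0 = 1 ∧ D.d b (c (D.l b g)) g = 0 ∧
    ∀ i j, i ≤ j → j ≤ D.l b g → D.d b (c i) (c j) = j - i := by
  have : ∀ x : G, ∃ p : G, D.l b p ≤ 1 ∧ (1 ≤ D.l b x → D.l b (p⁻¹ * x) + 1 ≤ D.l b x) := by
    intro x
    by_cases h : 1 ≤ D.l b x
    · obtain ⟨p, p1, -, p3⟩ := D.fac b x h
      exact ⟨p, p1, fun _ => p3⟩
    · exact ⟨1, by simp [D.l_one], fun h' => absurd h' h⟩
  choose st hst using this
  let c : ℕ → G := fun n => Nat.rec 1 (fun _ x => x * st (x⁻¹ * g)) n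
  have c0 : c 0 = 1 := rfl
  have cs : ∀ n, c (n + 1) = c n * st ((c n)⁻¹ * g) := fun _ => rfl
  have h1 : ∀ i k, D.d b (c i) (c (i + k)) ≤ k := by
    intro i k
    induction k with
    | zero => simp [D.d_self]
    | succ k ih =>
      have a1 := D.d_tri b (c i) (c (i + k)) (c (i + (k + 1)))
      have a2 : D.d b (c (i + k)) (c (i + (k + 1))) ≤ 1 := by
        rw [← add_assoc, cs, D.d_step]; exact (hst _).1
      omega
  have h2 : ∀ i, i ≤ D.l b g → D.d b (c i) g + i ≤ D.l b g := by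
    intro i
    induction i with
    | zero => intro _; simp [c0, D.d_one]
    | succ i ih =>
      intro hi
      have a1 := ih (by omega)
      have a2 := h1 0 i
      have a3 := D.d_tri b (c 0) (c i) g
      rw [zero_add] at a2
      rw [c0, D.d_one] at a3
      rw [c0] at a2
      have a4 := (hst ((c i)⁻¹ * g)).2 (by change 1 ≤ D.d b (c i) g; omega)
      have e : D.d b (c (i + 1)) g = D.l b ((st ((c i)⁻¹ * g))⁻¹ * ((c i)⁻¹ * g)) := by
        unfold d
        rw [cs]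
        congr 1
        group
      change _ ≤ D.d b (c i) g at a4
      omega
  refine ⟨c, c0, by have := h2 _ le_rfl; omega, fun i j hij hj => ?_⟩
  have a1 := h1 i (j - i)
  rw [show i + (j - i) = j by omega] at a1
  have a2 := h2 j hj
  have a3 := h1 0 i
  rw [zero_add, c0] at a3
  have a4 := D.d_tri b 1 (c i) g
  have a5 := D.d_tri b (c i) (c j) g
  rw [D.d_one b g] at a4
  omega

theorem not_sqc (H : Subgroup G) (h0 : ∀ h ∈ H, D.l true h = 0)
    (h1 : ∀ n, ∃ h ∈ H, n ≤ D.l false h) (h2 : ∀ n, ∃ g, n ≤ D.l true g) :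
    ¬ StronglyQuasiconvex D.S H := by
  intro hq
  obtain ⟨M, hM⟩ := hq 3 2 (by norm_num) (by norm_num)
  obtain ⟨N, hN⟩ := exists_nat_gt M
  obtain ⟨h, hH, hh⟩ := h1 (N + 1)
  set n := D.l false h with hn
  obtain ⟨g, hg⟩ := h2 n
  obtain ⟨a, a0, a1, a2⟩ := D.exists_geo false h
  obtain ⟨c, c0, -, c2⟩ := D.exists_geo true g
  choose pt hpt using D.exists_pt
  let u : ℕ → ℕ := fun k => min (k - n) n
  let v : ℕ → ℕ := fun k => min k (min n (3 * n - k))
  let P : ℕ → G := fun k => if k = 0 then 1 else if k = 3 * n then h else pt (a (u k)) (c (v k))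
  have hP : ∀ k, D.d false (P k) (a (u k)) = 0 ∧ D.d true (P k) (c (v k)) = 0 := by
    intro k
    by_cases k0 : k = 0
    · subst k0
      simp [P, u, v, a0, c0, D.d_self]
    · by_cases k1 : k = 3 * n
      · have e1 : u k = n := by simp only [u]; omega
        have e2 : v k = 0 := by simp only [v]; omega
        have e3 : P k = h := by simp only [P]; rw [if_neg k0, if_pos k1]
        rw [e1, e2, e3, c0, D.d_comm false, D.d_comm true, D.d_one]
        exact ⟨a1, h0 h hH⟩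
      · have e3 : P k = pt (a (u k)) (c (v k)) := by simp only [P]; rw [if_neg k0, if_neg k1]
        rw [e3]
        exact hpt _ _
  have ga : ∀ i j, i ≤ n → j ≤ n → (D.d false (a i) (a j) : ℤ) = |(i : ℤ) - j| := by
    intro i j hi hj
    rcases le_total i j with hij | hij
    · rw [a2 i j hij hj, abs_sub_comm, abs_of_nonneg (by omega)]; omega
    · rw [D.d_comm, a2 j i hij hi, abs_of_nonneg (by omega)]; omega
  have gc : ∀ i j, i ≤ n → j ≤ n → (D.d true (c i) (c j) : ℤ) = |(i : ℤ) - j| := by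
    intro i j hi hj
    rcases le_total i j with hij | hij
    · rw [c2 i j hij (by omega), abs_sub_comm, abs_of_nonneg (by omega)]; omega
    · rw [D.d_comm, c2 j i hij (by omega), abs_of_nonneg (by omega)]; omega
  have key : ∀ k m, k ≤ 3 * n → m ≤ 3 * n →
      |(k : ℤ) - m| ≤ 3 * ((D.d false (P k) (P m) : ℤ) + D.d true (P k) (P m)) ∧
      (D.d false (P k) (P m) : ℤ) + D.d true (P k) (P m) ≤ |(k : ℤ) - m| := by
    intro k m hk hm
    rw [D.d_congr false (hP k).1 (hP m).1, D.d_congr true (hP k).2 (hP m).2,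
      ga _ _ (by simp only [u]; omega) (by simp only [u]; omega),
      gc _ _ (by simp only [v]; omega) (by simp only [v]; omega)]
    simp only [u, v]
    constructor
    · rcases abs_cases ((k : ℤ) - m) with ⟨e1, _⟩ | ⟨e1, _⟩ <;>
      rcases abs_cases (((min (k - n) n : ℕ) : ℤ) - (min (m - n) n : ℕ)) with ⟨e2, _⟩ | ⟨e2, _⟩ <;>
      rcases abs_cases (((min k (min n (3 * n - k)) : ℕ) : ℤ) - (min m (min n (3 * n - m)) : ℕ))
        with ⟨e3, _⟩ | ⟨e3, _⟩ <;> rw [e1, e2, e3] <;> omega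
    · rcases abs_cases ((k : ℤ) - m) with ⟨e1, _⟩ | ⟨e1, _⟩ <;>
      rcases abs_cases (((min (k - n) n : ℕ) : ℤ) - (min (m - n) n : ℕ)) with ⟨e2, _⟩ | ⟨e2, _⟩ <;>
      rcases abs_cases (((min k (min n (3 * n - k)) : ℕ) : ℤ) - (min m (min n (3 * n - m)) : ℕ))
        with ⟨e3, _⟩ | ⟨e3, _⟩ <;> rw [e1, e2, e3] <;> omega
  have hfl : ∀ s ∈ Set.Icc (0 : ℝ) ((3 * n : ℕ) : ℝ), ⌊s⌋₊ ≤ 3 * n := fun s hs =>
    Nat.floor_le_of_le hs.2
  have hqg : IsQuasiGeod D.S 3 2 (fun s => P ⌊s⌋₊) 0 ((3 * n : ℕ) : ℝ) := by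
    refine ⟨Nat.cast_nonneg _, fun s hs t ht => ?_⟩
    obtain ⟨k1, k2⟩ := key _ _ (hfl s hs) (hfl t ht)
    have k1' : |((⌊s⌋₊ : ℕ) : ℝ) - (⌊t⌋₊ : ℕ)| ≤
        3 * ((D.d false (P ⌊s⌋₊) (P ⌊t⌋₊) : ℝ) + D.d true (P ⌊s⌋₊) (P ⌊t⌋₊)) := by
      exact_mod_cast k1
    have k2' : (D.d false (P ⌊s⌋₊) (P ⌊t⌋₊) : ℝ) + D.d true (P ⌊s⌋₊) (P ⌊t⌋₊) ≤
        |((⌊s⌋₊ : ℕ) : ℝ) - (⌊t⌋₊ : ℕ)| := by
      exact_mod_cast k2
    have w1 := D.wd_le (P ⌊s⌋₊) (P ⌊t⌋₊)
    have w2 := D.le_wd (P ⌊s⌋₊) (P ⌊t⌋₊)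
    have s1 := Nat.floor_le hs.1
    have s2 := Nat.lt_floor_add_one s
    have t1 := Nat.floor_le ht.1
    have t2 := Nat.lt_floor_add_one t
    have b1 : |s - t| ≤ |((⌊s⌋₊ : ℕ) : ℝ) - (⌊t⌋₊ : ℕ)| + 1 := by
      rw [abs_le]
      constructor
      · have := neg_abs_le (((⌊s⌋₊ : ℕ) : ℝ) - (⌊t⌋₊ : ℕ)); linarith
      · have := le_abs_self (((⌊s⌋₊ : ℕ) : ℝ) - (⌊t⌋₊ : ℕ)); linarith
    have b2 : |((⌊s⌋₊ : ℕ) : ℝ) - (⌊t⌋₊ : ℕ)| ≤ |s - t| + 1 := by
      rw [abs_le]
      constructor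
      · have := neg_abs_le (s - t); linarith
      · have := le_abs_self (s - t); linarith
    have b3 := abs_nonneg (s - t)
    constructor
    · simp only
      linarith
    · simp only
      linarith
  have hn0 : n ≠ 0 := by omega
  obtain ⟨x, hx, hxM⟩ := hM _ _ _ hqg (by simp [P]) (by
    simp only [Nat.floor_natCast]
    have : P (3 * n) = h := by simp only [P]; rw [if_neg (by omega), if_pos trivial]
    rw [this]; exact hH) (n : ℝ) ⟨Nat.cast_nonneg _, by push_cast; have : (0 : ℝ) ≤ n := Nat.cast_nonneg _; linarith⟩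
  simp only [Nat.floor_natCast] at hxM
  have w2 := D.le_wd (P n) x
  have e2 : v n = n := by simp only [v]; omega
  have e4 : D.d true (P n) x = n := by
    have z : D.d true x (c 0) = 0 := by rw [c0, D.d_comm, D.d_one]; exact h0 x hx
    rw [D.d_congr true (hP n).2 z, e2, D.d_comm, c2 0 n (by omega) hg]
    omega
  rw [e4] at w2
  have : (N : ℝ) + 1 ≤ n := by exact_mod_cast hh
  have : (0 : ℝ) ≤ D.d false (P n) x := Nat.cast_nonneg _
  linarith

end PD

end Pool.Agent.H841Z.Mal
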