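import Pool.Agent.Helper548.HB.Core
set_option autoImplicit false

/-! Almost malnormal subgroups and strongly quasiconvex subgroups. -/

namespace Pool.Agent.H841Z.Mal

open Pool.Agent.Helper548.HB

/-- `H` is almost malnormal: the intersection of `H` and `g H g⁻¹` is finite for each `g` outside
`H`. -/
def AlmostMalnormal {G : Type} [Group G] (H : Subgroup G) : Prop :=
  ∀ g : G, g ∉ H → {x : G | x ∈ H ∧ ∃ h ∈ H, x = g * h * g⁻¹}.Finite

/-- `γ` restricted to `[a, b]` is a `(K, C)`-quasi-geodesic of `G` for the word metric of `S`. -/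
def IsQuasiGeod {G : Type} [Group G] (S : Finset G) (K C : ℝ) (γ : ℝ → G) (a b : ℝ) : Prop :=
  a ≤ b ∧ ∀ s ∈ Set.Icc a b, ∀ t ∈ Set.Icc a b,
    |s - t| / K - C ≤ wd S (γ s) (γ t) ∧ wd S (γ s) (γ t) ≤ K * |s - t| + C

/-- `H` is strongly quasiconvex (word metric of `S`): for all `K ≥ 1`, `C ≥ 0` there is `M` such
that each `(K, C)`-quasi-geodesic with both endpoints in `H` lies in the closed
`M`-neighbourhood of `H`. -/
def StronglyQuasiconvex {G : Type} [Group G] (S : Finset G) (H : Subgroup G) : Prop :=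
  ∀ K C : ℝ, 1 ≤ K → 0 ≤ C → ∃ M : ℝ, ∀ (γ : ℝ → G) (a b : ℝ), IsQuasiGeod S K C γ a b →
    γ a ∈ H → γ b ∈ H → ∀ t ∈ Set.Icc a b, ∃ h ∈ H, wd S (γ t) h ≤ M

end Pool.Agent.H841Z.Mal
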