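import Pool.Agent.H841Z.Mal.Abs
set_option autoImplicit false

/-! The hierarchically hyperbolic group structure on a group with two tree-like length functions. -/

namespace Pool.Agent.H841Z.Mal

open Pool.Agent.Helper548.HB

theorem sd_nonneg {X : Type} [MetricSpace X] (A B : Set X) : 0 ≤ sd A B := by
  apply Real.sInf_nonneg
  rintro r ⟨a, -, b, -, rfl⟩
  exact dist_nonneg

theorem sd_le {X : Type} [MetricSpace X] {A B : Set X} {a b : X} (ha : a ∈ A) (hb : b ∈ B) :
    sd A B ≤ dist a b := by
  apply csInf_le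
  · refine ⟨0, ?_⟩
    rintro r ⟨a, -, b, -, rfl⟩
    exact dist_nonneg
  · exact ⟨a, ha, b, hb, rfl⟩

theorem sd_single {X : Type} [MetricSpace X] (a b : X) : sd {a} {b} = dist a b := by
  unfold sd
  have : {r | ∃ a' ∈ ({a} : Set X), ∃ b' ∈ ({b} : Set X), r = dist a' b'} = {dist a b} := by
    ext r; simp
  rw [this, csInf_singleton]

namespace PD
variable {G : Type} [Group G] (D : PD G)

/-- the graph of one of the length functions -/
def Gr (b : Bool) : SimpleGraph G where
  Adj g h := g ≠ h ∧ D.d b g h ≤ 1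
  symm := ⟨fun _ _ h => ⟨h.1.symm, by rw [D.d_comm]; exact h.2⟩⟩
  loopless := ⟨fun _ h => h.1 rfl⟩

theorem Gr_smul (b : Bool) (a g h : G) : (D.Gr b).Adj (a • g) (a • h) ↔ (D.Gr b).Adj g h := by
  simp only [Gr, smul_eq_mul, D.d_mul, ne_eq, mul_right_inj]

theorem walk_le (b : Bool) {g h : G} (w : (D.Gr b).Walk g h) : D.d b g h ≤ w.length := by
  induction w with
  | nil => simp [D.d_self]
  | @cons u v x hadj w ih =>
    have := D.d_tri b u v x
    have := hadj.2
    simp only [SimpleGraph.Walk.length_cons]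
    omega

theorem exists_walk (b : Bool) (n : ℕ) : ∀ g h : G, D.d b g h ≤ n →
    ∃ w : (D.Gr b).Walk g h, w.length ≤ n + 1 := by
  induction n with
  | zero =>
    intro g h hgh
    by_cases e : g = h
    · subst e; exact ⟨.nil, by simp⟩
    · exact ⟨.cons ⟨e, by omega⟩ .nil, by simp⟩
  | succ n ih =>
    intro g h hgh
    by_cases h0 : D.d b g h ≤ n
    · obtain ⟨w, hw⟩ := ih g h h0
      exact ⟨w, by omega⟩
    · obtain ⟨p, p1, -, p3⟩ := D.fac b (g⁻¹ * h) (by change 1 ≤ D.d b g h; omega)
      have e : D.d b (g * p) h = D.l b (p⁻¹ * (g⁻¹ * h)) := by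
        unfold d; congr 1; group
      change _ ≤ D.d b g h at p3
      obtain ⟨w, hw⟩ := ih (g * p) h (by omega)
      by_cases e' : g = g * p
      · exact ⟨w.copy e'.symm rfl, by simp; omega⟩
      · exact ⟨.cons ⟨e', by rw [D.d_step]; exact p1⟩ w, by simp; omega⟩

theorem Gr_conn (b : Bool) : (D.Gr b).Connected := by
  have : Nonempty G := ⟨1⟩
  refine ⟨fun g h => ?_⟩
  obtain ⟨w, -⟩ := D.exists_walk b _ g h le_rfl
  exact ⟨w⟩

theorem Gr_dist_le (b : Bool) (g h : G) : (D.Gr b).dist g h ≤ D.d b g h + 1 := by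
  obtain ⟨w, hw⟩ := D.exists_walk b _ g h le_rfl
  exact (SimpleGraph.dist_le w).trans hw

theorem le_Gr_dist (b : Bool) (g h : G) : D.d b g h ≤ (D.Gr b).dist g h := by
  obtain ⟨w, hw⟩ := (D.Gr_conn b).exists_walk_length_eq_dist g h
  rw [← hw]
  exact D.walk_le b w

variable (R : ∀ b, Realz (D.Gr b) G)

theorem R_le (b : Bool) (g h : G) : dist ((R b).ι g) ((R b).ι h) ≤ D.d b g h + 1 := by
  rw [(R b).dist_ι]; exact_mod_cast D.Gr_dist_le b g h

theorem le_R (b : Bool) (g h : G) : (D.d b g h : ℝ) ≤ dist ((R b).ι g) ((R b).ι h) := by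
  rw [(R b).dist_ι]; exact_mod_cast D.le_Gr_dist b g h

theorem R_hyp (b : Bool) : HypC (R b).X 100 := by
  have near : ∀ (x y : (R b).X) (g h : G), dist x ((R b).ι g) ≤ 1 → dist y ((R b).ι h) ≤ 1 →
      dist x y ≤ D.d b g h + 3 ∧ (D.d b g h : ℝ) - 3 ≤ dist x y := by
    intro x y g h hx hy
    have a1 := D.R_le R b g h
    have a2 := D.le_R R b g h
    have a3 := dist_triangle4 x ((R b).ι g) ((R b).ι h) y
    have a4 := dist_triangle4 ((R b).ι g) x y ((R b).ι h)
    rw [dist_comm ((R b).ι h) y] at a3
    rw [dist_comm ((R b).ι g) x] at a4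
    constructor <;> linarith
  intro o x y z
  obtain ⟨go, ho⟩ := (R b).dense o
  obtain ⟨gx, hx⟩ := (R b).dense x
  obtain ⟨gy, hy⟩ := (R b).dense y
  obtain ⟨gz, hz⟩ := (R b).dense z
  have a1 := near o x go gx ho hx
  have a2 := near o y go gy ho hy
  have a3 := near o z go gz ho hz
  have a4 := near x y gx gy hx hy
  have a5 := near x z gx gz hx hz
  have a6 := near z y gz gy hz hy
  have h4 := D.d_four b go gx gy gz
  unfold gprod
  rw [dist_comm x o, dist_comm y o, dist_comm z o]
  rcases min_le_iff.1 h4 with h | h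
  · have h' : (D.d b go gx : ℝ) + D.d b go gz - D.d b gx gz ≤
        (D.d b go gx : ℝ) + D.d b go gy - D.d b gx gy := by exact_mod_cast h
    have := min_le_left ((dist o x + dist o z - dist x z) / 2) ((dist o z + dist o y - dist z y) / 2)
    linarith [a1.1, a1.2, a2.1, a2.2, a3.1, a3.2, a4.1, a4.2, a5.1, a5.2, a6.1, a6.2]
  · have h' : (D.d b go gz : ℝ) + D.d b go gy - D.d b gz gy ≤
        (D.d b go gx : ℝ) + D.d b go gy - D.d b gx gy := by exact_mod_cast h
    have := min_le_right ((dist o x + dist o z - dist x z) / 2) ((dist o z + dist o y - dist z y) / 2)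
    linarith [a1.1, a1.2, a2.1, a2.2, a3.1, a3.2, a4.1, a4.2, a5.1, a5.2, a6.1, a6.2]

/-- the space of a domain -/
def CC : Option Bool → Type
  | none => PUnit
  | some b => (R b).X

instance CCmet : ∀ U, MetricSpace (D.CC R U)
  | none => (inferInstance : MetricSpace PUnit)
  | some b => (R b).met

/-- projection -/
def pr : ∀ U, G → D.CC R U
  | none, _ => PUnit.unit
  | some b, g => (R b).ι g

/-- action -/
def ac (g : G) : ∀ U, D.CC R U → D.CC R U
  | none, p => p
  | some b, p => (g • (show (R b).X from p) : (R b).X)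

/-- the hierarchy -/
@[reducible] def hier : Hier G where
  Dom := Option Bool
  C := D.CC R
  met := D.CCmet R
  nest U V := U = V ∨ V = none
  orth U V := ∃ b, U = some b ∧ V = some (!b)
  π U g := {D.pr R U g}
  ρ _ _ := Set.univ
  ρd _ _ _ := Set.univ

theorem dist_none (p q : D.CC R none) : dist p q = 0 := by
  have : p = q := rfl
  rw [this, dist_self]

theorem sd_none (A B : Set (D.CC R none)) : sd A B = 0 := by
  apply le_antisymm _ (sd_nonneg _ _)
  apply Real.sInf_nonpos
  rintro r ⟨a, -, b, -, rfl⟩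
  exact (D.dist_none R a b).le

theorem pnest_iff (V W : Option Bool) : (D.hier R).pnest V W ↔ W = none ∧ V ≠ none := by
  constructor
  · rintro ⟨h | h, h'⟩
    · exact absurd h h'
    · exact ⟨h, fun e => h' (e.trans h.symm)⟩
  · rintro ⟨h, h'⟩
    exact ⟨Or.inr h, fun e => h' (e.trans h)⟩

theorem not_trans (V W : Option Bool) : ¬ (D.hier R).trans V W := by
  rintro ⟨h1, h2, h3⟩
  rcases V with _ | a
  · exact h3 (Or.inr rfl)
  rcases W with _ | b
  · exact h2 (Or.inr rfl)
  by_cases e : a = b
  · exact h2 (Or.inl (by rw [e]))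
  · exact h1 ⟨a, rfl, by cases a <;> cases b <;> simp_all⟩

theorem dom_none (x y : G) : (D.hier R).dom none x y = 0 := D.sd_none R _ _

theorem dom_some (b : Bool) (x y : G) :
    (D.hier R).dom (some b) x y = dist ((R b).ι x) ((R b).ι y) := sd_single _ _

theorem isHHS : IsHHS (wd D.S) (D.hier R) 100 where
  one_le := by norm_num
  geod := by
    rintro (_ | b)
    · intro x y
      refine ⟨fun _ => x, rfl, rfl, fun s hs t ht => ?_⟩
      rw [D.dist_none R x y] at hs ht
      have e1 : s = 0 := le_antisymm hs.2 hs.1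
      have e2 : t = 0 := le_antisymm ht.2 ht.1
      simp [e1, e2]
    · exact (R b).geod
  hyp := by
    rintro (_ | b)
    · intro o x y z
      unfold gprod
      simp only [D.dist_none R]
      norm_num
    · exact D.R_hyp R b
  π_ne := fun U x => ⟨_, rfl⟩
  π_diam := by
    rintro U x a rfl b rfl
    simp
  π_lip := by
    rintro U x y p rfl q rfl
    have h1 := D.le_wd x y
    have h2 : (0 : ℝ) ≤ D.d false x y := Nat.cast_nonneg _
    have h3 : (0 : ℝ) ≤ D.d true x y := Nat.cast_nonneg _
    rcases U with _ | b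
    · rw [D.dist_none R]; linarith
    · have := D.R_le R b x y
      change dist ((R b).ι x) ((R b).ι y) ≤ _
      cases b <;> linarith
  π_surj := by
    rintro (_ | b) p
    · exact ⟨1, _, rfl, by rw [D.dist_none R]; norm_num⟩
    · obtain ⟨a, ha⟩ := (R b).dense p
      exact ⟨a, _, rfl, ha.trans (by norm_num)⟩
  nest_refl := fun U => Or.inl rfl
  nest_antisymm := by
    rintro U V (h | h) (h' | h')
    · exact h
    · exact h
    · exact h'.symm
    · exact h'.trans h.symm
  nest_trans := by
    rintro U V W (h | h) (h' | h')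
    · exact Or.inl (h.trans h')
    · exact Or.inr h'
    · exact Or.inr (h'.symm.trans h)
    · exact Or.inr h'
  nest_max := ⟨none, fun U => Or.inr rfl⟩
  ρ_ne := fun V W _ => ⟨D.pr R W 1, trivial⟩
  ρ_diam := by
    rintro V W (h | h)
    · obtain ⟨rfl, -⟩ := (D.pnest_iff R V W).1 h
      intro a _ b _
      rw [D.dist_none R]; norm_num
    · exact absurd h (D.not_trans R V W)
  ρd_ne := fun V W _ _ => ⟨D.pr R V 1, trivial⟩
  orth_symm := by
    rintro U V ⟨b, rfl, rfl⟩
    exact ⟨!b, rfl, by simp⟩
  orth_irrefl := by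
    rintro U ⟨b, rfl, h⟩
    cases b <;> simp at h
  orth_nest := by
    rintro V W U (h | h) ⟨b, h1, h2⟩
    · exact ⟨b, h.trans h1, h2⟩
    · rw [h] at h1; cases h1
  container := by
    rintro T U hU ⟨V, hV, b, rfl, rfl⟩
    have hT : T = none := by
      rcases hU with h | h
      · rcases hV with h' | h'
        · rw [← h'] at h; cases b <;> simp at h
        · exact h'
      · exact h
    subst hT
    refine ⟨some b, (D.pnest_iff R _ _).2 ⟨rfl, by simp⟩, ?_⟩
    rintro V - ⟨c, rfl, h⟩
    left
    cases b <;> cases c <;> simp_all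
  orth_not_nest := by
    rintro V W ⟨b, rfl, rfl⟩
    constructor <;> rintro (h | h) <;> cases b <;> simp at h
  cons_trans := fun V W h => absurd h (D.not_trans R V W)
  cons_nest := by
    intro V W h x
    obtain ⟨rfl, -⟩ := (D.pnest_iff R V W).1 h
    left
    rw [D.sd_none R]; norm_num
  cons_ρ := by
    rintro U V W - (h | h)
    · obtain ⟨rfl, -⟩ := (D.pnest_iff R V W).1 h
      rw [D.sd_none R]; norm_num
    · exact absurd h.1 (D.not_trans R V W)
  complexity := ⟨Fintype.card (Option Bool), fun s _ => Finset.card_le_univ (α := Option Bool) s⟩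
  large_links := by
    rintro (_ | b) x x'
    · refine ⟨({some false, some true} : Finset (Option Bool)), ?_, ?_, ?_⟩
      · rw [D.dom_none R]
        have : (({some false, some true} : Finset (Option Bool)).card : ℝ) = 2 := by
          norm_num
        exact this.le.trans (by norm_num)
      · intro T hT
        refine ⟨(D.pnest_iff R _ _).2 ⟨rfl, ?_⟩, ?_⟩
        · rintro rfl
          simp at hT
        · rw [D.dom_none R, D.sd_none R]; norm_num
      · intro U hU
        left
        obtain ⟨-, h⟩ := (D.pnest_iff R _ _).1 hU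
        refine ⟨U, ?_, Or.inl rfl⟩
        rcases U with _ | b
        · exact absurd rfl h
        · cases b <;> simp
    · refine ⟨∅, ?_, by simp, ?_⟩
      · have : 0 ≤ (D.hier R).dom (some b) x x' := sd_nonneg _ _
        simp only [Finset.card_empty, Nat.cast_zero]
        linarith
      · intro U hU
        obtain ⟨h, -⟩ := (D.pnest_iff R _ _).1 hU
        cases h
  bgi := by
    intro V W h γ l hγ
    obtain ⟨rfl, -⟩ := (D.pnest_iff R V W).1 h
    right
    exact ⟨0, ⟨le_rfl, hγ.1⟩, γ 0, trivial, by simp⟩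
  realization := by
    intro F _ p
    obtain ⟨a, ha⟩ := (R false).dense (p (some false))
    obtain ⟨c, hc⟩ := (R true).dense (p (some true))
    obtain ⟨x, h1, h2⟩ := D.exists_pt a c
    refine ⟨x, fun U _ => ⟨?_, ?_⟩⟩
    · rcases U with _ | b
      · rw [D.sd_none R]; norm_num
      · refine (sd_single _ _).le.trans ?_
        cases b
        · have b1 := D.R_le R false x a
          rw [h1] at b1
          have b2 := dist_triangle ((R false).ι x) ((R false).ι a) (p (some false))
          rw [dist_comm ((R false).ι a)] at b2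
          change dist ((R false).ι x) (p (some false)) ≤ 100
          push_cast at b1
          linarith
        · have b1 := D.R_le R true x c
          rw [h2] at b1
          have b2 := dist_triangle ((R true).ι x) ((R true).ι c) (p (some true))
          rw [dist_comm ((R true).ι c)] at b2
          change dist ((R true).ι x) (p (some true)) ≤ 100
          push_cast at b1
          linarith
    · rintro W (h | h)
      · obtain ⟨rfl, -⟩ := (D.pnest_iff R U W).1 h
        rw [D.sd_none R]; norm_num
      · exact absurd h (D.not_trans R U W)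
  uniqueness := by
    intro κ
    refine ⟨2 * κ + 1, fun x y h => ?_⟩
    have h1 := D.wd_le x y
    have h2 := D.le_R R false x y
    have h3 := D.le_R R true x y
    by_cases h4 : κ ≤ dist ((R false).ι x) ((R false).ι y)
    · exact ⟨some false, by rw [D.dom_some R]; exact h4⟩
    · exact ⟨some true, by rw [D.dom_some R]; linarith⟩
  distance := by
    refine ⟨1, fun s hs => ⟨2 * s + 2, fun x y => ⟨Set.toFinite (α := Option Bool) _, ?_⟩⟩⟩
    have e : (∑ᶠ U, thr s ((D.hier R).dom U x y)) = thr s (dist ((R false).ι x) ((R false).ι y)) +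
        thr s (dist ((R true).ι x) ((R true).ι y)) := by
      have := finsum_eq_sum_of_fintype (α := Option Bool) (fun U => thr s ((D.hier R).dom U x y))
      refine this.trans ?_
      rw [Fintype.sum_option, Fintype.sum_bool, D.dom_none R, D.dom_some R, D.dom_some R]
      have : thr s 0 = 0 := by unfold thr; split_ifs <;> rfl
      rw [this]; ring
    rw [e]
    have t1 : ∀ a : ℝ, 0 ≤ a → thr s a ≤ a ∧ a - s ≤ thr s a ∧ 0 ≤ thr s a := by
      intro a ha
      unfold thr
      split_ifs with h
      · exact ⟨le_rfl, by linarith, ha⟩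
      · exact ⟨ha, by linarith [not_le.1 h], le_rfl⟩
    obtain ⟨a1, a2, a3⟩ := t1 _ (dist_nonneg (x := (R false).ι x) (y := (R false).ι y))
    obtain ⟨b1, b2, b3⟩ := t1 _ (dist_nonneg (x := (R true).ι x) (y := (R true).ι y))
    have h1 := D.wd_le x y
    have h1' := D.le_wd x y
    have h2 := D.le_R R false x y
    have h3 := D.le_R R true x y
    have h4 := D.R_le R false x y
    have h5 := D.R_le R true x y
    have h6 : (0 : ℝ) ≤ D.d false x y := Nat.cast_nonneg _
    have h7 : (0 : ℝ) ≤ D.d true x y := Nat.cast_nonneg _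
    have h8 : 0 ≤ wd D.S x y := by linarith
    constructor
    · nlinarith
    · nlinarith

theorem ac_isom (g : G) : ∀ U (p q : D.CC R U), dist (D.ac R g U p) (D.ac R g U q) = dist p q
  | none, _, _ => rfl
  | some b, p, q => (R b).isom g p q

theorem ac_one : ∀ U (p : D.CC R U), D.ac R 1 U p = p
  | none, _ => rfl
  | some b, p => one_smul G (show (R b).X from p)

theorem ac_mul (g h : G) : ∀ U (p : D.CC R U), D.ac R (g * h) U p = D.ac R g U (D.ac R h U p)
  | none, _ => rfl
  | some b, p => mul_smul g h (show (R b).X from p)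

theorem ac_surj (g : G) (U : Option Bool) : Function.Surjective (D.ac R g U) := fun p =>
  ⟨D.ac R g⁻¹ U p, by rw [← D.ac_mul, mul_inv_cancel, D.ac_one]⟩

theorem ac_pr (g x : G) : ∀ U, D.pr R U (g * x) = D.ac R g U (D.pr R U x)
  | none => rfl
  | some b => (R b).ι_smul g x

/-- the structure of hierarchically hyperbolic group -/
noncomputable def hhg : HHG G D.S where
  H := D.hier R
  K := 100
  isHHS := D.isHHS R
  act _ U := U
  act_one _ := rfl
  act_mul _ _ _ := rfl
  cofinite := ⟨(Finset.univ : Finset (Option Bool)), fun U => ⟨1, U, Finset.mem_univ _, rfl⟩⟩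
  act_nest _ _ _ := Iff.rfl
  act_orth _ _ _ := Iff.rfl
  iso g U := D.ac R g U
  iso_isom g U := D.ac_isom R g U
  iso_surj g U := D.ac_surj R g U
  iso_one U p := heq_of_eq (D.ac_one R U p)
  iso_mul g h U p := heq_of_eq (D.ac_mul R g h U p)
  iso_π g U x := by
    change ({D.pr R U (g * x)} : Set (D.CC R U)) = D.ac R g U '' {D.pr R U x}
    rw [Set.image_singleton, D.ac_pr]
  iso_ρ g U V _ := (Set.image_univ_of_surjective (D.ac_surj R g V)).symm
  iso_ρd g W V p _ := (Set.image_univ_of_surjective (D.ac_surj R g V)).symm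

theorem nonempty_hhg : Nonempty (HHG G D.S) := by
  have : ∀ b, Nonempty (Realz (D.Gr b) G) := fun b =>
    exists_realz (D.Gr b) (D.Gr_conn b) G (D.Gr_smul b)
  exact ⟨D.hhg fun b => (this b).some⟩

end PD

end Pool.Agent.H841Z.Mal
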