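import Pool.Agent.H841Z.Mal.Quat
import Pool.Agent.H841Z.Mal.Hhg
set_option autoImplicit false

/-! The lattice of integral quaternions of norm dividing a power of 15, modulo scalars. -/

namespace Pool.Agent.H841Z.Mal

open Quaternion

instance fact5 : Fact (Nat.Prime 5) := ⟨by norm_num⟩

/-- quaternions with norm dividing a power of 15 -/
def Mq : Submonoid LQ where
  carrier := {x | ∃ k, nn x ∣ 15 ^ k}
  one_mem' := ⟨0, by simp [nn_one]⟩
  mul_mem' := by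
    rintro x y ⟨k, hk⟩ ⟨m, hm⟩
    exact ⟨k + m, by rw [nn_mul, pow_add]; exact mul_dvd_mul hk hm⟩

theorem Mq_ne (x : Mq) : x.1 ≠ 0 := by
  obtain ⟨k, hk⟩ := x.2
  apply ne_zero_of_nn
  intro h
  rw [h] at hk
  have := Nat.eq_zero_of_zero_dvd hk
  simp at this

theorem Mq_of_smul {m : ℤ} {y : LQ} (h : m • y ∈ Mq) : y ∈ Mq := by
  obtain ⟨k, hk⟩ := h
  refine ⟨k, Dvd.dvd.trans ?_ hk⟩
  rw [nn_smul]
  exact dvd_mul_left _ _

theorem Mq_star {y : LQ} (h : y ∈ Mq) : star y ∈ Mq := by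
  obtain ⟨k, hk⟩ := h
  exact ⟨k, by rwa [nn_star]⟩

theorem Mq_of_nn {y : LQ} (h : nn y ∣ 15) : y ∈ Mq := ⟨1, by simpa using h⟩

theorem Mq_nn (x : Mq) : nn x.1 = 3 ^ padicValNat 3 (nn x.1) * 5 ^ padicValNat 5 (nn x.1) := by
  obtain ⟨k, hk⟩ := x.2
  rw [show (15 : ℕ) = 3 * 5 by norm_num, mul_pow] at hk
  obtain ⟨a, b, ha, hb, hab⟩ := (Nat.dvd_mul).1 hk
  obtain ⟨i, -, rfl⟩ := (Nat.dvd_prime_pow Nat.prime_three).1 ha
  obtain ⟨j, -, rfl⟩ := (Nat.dvd_prime_pow fact5.out).1 hb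
  rw [← hab, padicValNat.mul (by positivity) (by positivity),
    padicValNat.mul (by positivity) (by positivity), padicValNat.prime_pow, padicValNat.prime_pow,
    padicValNat_prime_prime_pow j (by norm_num : 3 ≠ 5),
    padicValNat_prime_prime_pow i (by norm_num : 5 ≠ 3)]
  simp

/-- proportionality -/
def con : Con Mq where
  r x y := ∃ m n : ℤ, m ≠ 0 ∧ n ≠ 0 ∧ m • x.1 = n • y.1
  iseqv := ⟨fun _ => ⟨1, 1, one_ne_zero, one_ne_zero, rfl⟩,
    fun ⟨m, n, hm, hn, h⟩ => ⟨n, m, hn, hm, h.symm⟩,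
    fun ⟨m, n, hm, hn, h⟩ ⟨a, b, ha, hb, k⟩ => ⟨a * m, n * b, mul_ne_zero ha hm, mul_ne_zero hn hb, by
      rw [mul_smul, h, smul_comm, k, mul_smul]⟩⟩
  mul' := by
    rintro w x y z ⟨m, n, hm, hn, h⟩ ⟨a, b, ha, hb, k⟩
    refine ⟨m * a, n * b, mul_ne_zero hm ha, mul_ne_zero hn hb, ?_⟩
    have e1 : (m * a) • ((w * y : Mq) : LQ) = (m • w.1) * (a • y.1) := by
      rw [Submonoid.coe_mul, smul_mul_smul_comm]
    have e2 : (n * b) • ((x * z : Mq) : LQ) = (n • x.1) * (b • z.1) := by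
      rw [Submonoid.coe_mul, smul_mul_smul_comm]
    rw [e1, e2, h, k]

/-- the group -/
def GQ : Type := con.Quotient

instance : Monoid GQ := inferInstanceAs (Monoid con.Quotient)

/-- the class of a quaternion -/
def mk0 : Mq →* GQ := con.mk'

theorem mk0_eq (x y : Mq) : mk0 x = mk0 y ↔ ∃ m n : ℤ, m ≠ 0 ∧ n ≠ 0 ∧ m • x.1 = n • y.1 :=
  Con.eq con

theorem mk0_surj : Function.Surjective mk0 := Con.mk'_surjective

/-- conjugate -/
def st (x : Mq) : Mq := ⟨star x.1, Mq_star x.2⟩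

theorem mk0_st_mul (x : Mq) : mk0 (st x) * mk0 x = 1 := by
  rw [← map_mul, ← map_one mk0, mk0_eq]
  refine ⟨1, nn x.1, one_ne_zero, by exact_mod_cast nn_ne_zero (Mq_ne x), ?_⟩
  rw [one_smul]
  exact star_mul_self' x.1

theorem mk0_mul_st (x : Mq) : mk0 x * mk0 (st x) = 1 := by
  rw [← map_mul, ← map_one mk0, mk0_eq]
  refine ⟨1, nn x.1, one_ne_zero, by exact_mod_cast nn_ne_zero (Mq_ne x), ?_⟩
  rw [one_smul]
  exact mul_star_self' x.1

noncomputable instance : Group GQ := groupOfIsUnit fun g => by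
  obtain ⟨x, rfl⟩ := mk0_surj g
  exact ⟨⟨mk0 x, mk0 (st x), mk0_mul_st x, mk0_st_mul x⟩, rfl⟩

/-- the class of a quaternion -/
noncomputable def mk : Mq →* GQ := mk0

theorem mk_eq (x y : Mq) : mk x = mk y ↔ ∃ m n : ℤ, m ≠ 0 ∧ n ≠ 0 ∧ m • x.1 = n • y.1 :=
  mk0_eq x y

theorem mk_surj : Function.Surjective mk := mk0_surj

theorem mk_inv (x : Mq) : (mk x)⁻¹ = mk (st x) :=
  (eq_inv_of_mul_eq_one_left (mk0_st_mul x)).symm

/-- length at `p` -/
def lq (p : ℕ) [Fact p.Prime] (g : GQ) : ℤ :=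
  Con.liftOn (c := con) g (fun x => lz p x.1) (by
    rintro x y ⟨m, n, hm, hn, h⟩
    rw [← lz_smul p hm (Mq_ne x), h, lz_smul p hn (Mq_ne y)])

theorem lq_mk (p : ℕ) [Fact p.Prime] (x : Mq) : lq p (mk x) = lz p x.1 := rfl

theorem exists_rep (p : ℕ) [hp : Fact p.Prime] (g : GQ) : ∃ x : Mq, mk x = g ∧ ¬ Dv p x.1 := by
  obtain ⟨x, rfl⟩ := mk_surj g
  obtain ⟨k, y, h1, h2⟩ := exists_prim p (Mq_ne x)
  refine ⟨⟨y, Mq_of_smul (h1 ▸ x.2)⟩, ?_, h2⟩
  rw [mk_eq]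
  exact ⟨(p : ℤ) ^ k, 1, pow_ne_zero _ (by exact_mod_cast hp.out.ne_zero), one_ne_zero,
    by rw [one_smul]; exact h1.symm⟩

theorem exists_rep2 (g : GQ) : ∃ x : Mq, mk x = g ∧ ¬ Dv (3 : ℕ) x.1 ∧ ¬ Dv (5 : ℕ) x.1 := by
  obtain ⟨x, rfl, hx⟩ := exists_rep 3 g
  obtain ⟨k, y, h1, h2⟩ := exists_prim 5 (Mq_ne x)
  refine ⟨⟨y, Mq_of_smul (h1 ▸ x.2)⟩, ?_, ?_, h2⟩
  · rw [mk_eq]
    exact ⟨((5 : ℕ) : ℤ) ^ k, 1, pow_ne_zero _ (by norm_num), one_ne_zero,
      by rw [one_smul]; exact h1.symm⟩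
  · intro h
    apply hx
    obtain ⟨z, hz⟩ := (Dv_iff _ _).1 h
    refine (Dv_iff _ _).2 ⟨((5 : ℕ) : ℤ) ^ k • z, ?_⟩
    rw [h1, smul_comm]
    exact congrArg _ hz

section
variable (p : ℕ) [hp : Fact p.Prime]

theorem lq_nonneg (g : GQ) : 0 ≤ lq p g := by
  obtain ⟨x, rfl, hx⟩ := exists_rep p g
  rw [lq_mk, lz_prim p hx]
  positivity

theorem lq_inv (g : GQ) : lq p g⁻¹ = lq p g := by
  obtain ⟨x, rfl⟩ := mk_surj g
  rw [mk_inv, lq_mk, lq_mk]
  exact lz_star p x.1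

theorem lq_mul (g h : GQ) : lq p (g * h) ≤ lq p g + lq p h := by
  obtain ⟨x, rfl, hx⟩ := exists_rep p g
  obtain ⟨y, rfl, hy⟩ := exists_rep p h
  rw [← map_mul, lq_mk, lq_mk, lq_mk, Submonoid.coe_mul, lz_mul p hx hy]
  have : (0 : ℤ) ≤ ka p (x.1 * y.1) := Nat.cast_nonneg _
  linarith

theorem lq_gp {x y : Mq} (hx : ¬ Dv p x.1) (hy : ¬ Dv p y.1) :
    lq p (mk x) + lq p (mk y) - lq p ((mk x)⁻¹ * mk y) = 2 * ka p (star x.1 * y.1) := by
  rw [mk_inv, ← map_mul, lq_mk, lq_mk, lq_mk, Submonoid.coe_mul]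
  have hx' : ¬ Dv p (star x.1) := by rwa [Dv_star]
  have := lz_mul p hx' hy
  rw [lz_star] at this
  change _ - lz p (star x.1 * y.1) = _
  rw [this]
  ring

theorem lq_four (h2 : p ≠ 2) (g h k : GQ) :
    min (lq p g + lq p k - lq p (g⁻¹ * k)) (lq p k + lq p h - lq p (k⁻¹ * h)) ≤
      lq p g + lq p h - lq p (g⁻¹ * h) := by
  obtain ⟨x, rfl, hx⟩ := exists_rep p g
  obtain ⟨y, rfl, hy⟩ := exists_rep p h
  obtain ⟨z, rfl, hz⟩ := exists_rep p k
  rw [lq_gp p hx hz, lq_gp p hz hy, lq_gp p hx hy]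
  have := ka_four p h2 (Mq_ne x) (Mq_ne y) hz
  omega

theorem lq_of_nn {x : Mq} (h : ¬ p ∣ nn x.1) : lq p (mk x) = 0 := by
  have a := lq_nonneg p (mk x)
  rw [lq_mk] at a ⊢
  unfold lz at a ⊢
  rw [padicValNat.eq_zero_of_not_dvd h] at a ⊢
  omega

theorem lq_fac (hf : ∀ x : LQ, p ∣ nn x → ∃ q : LQ, nn q = p ∧ Dv p (star q * x))
    (h15 : p ∣ 15) (g : GQ) (hg : 1 ≤ lq p g) :
    ∃ q : Mq, nn q.1 = p ∧ lq p (mk q) ≤ 1 ∧ lq p ((mk q)⁻¹ * g) + 1 ≤ lq p g := by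
  obtain ⟨x, rfl, hx⟩ := exists_rep p g
  rw [lq_mk, lz_prim p hx] at hg
  obtain ⟨q, q1, q2⟩ := hf x.1 (dvd_of_one_le_padicValNat (by exact_mod_cast hg))
  have hq : q ∈ Mq := Mq_of_nn (q1 ▸ h15)
  refine ⟨⟨q, hq⟩, q1, ?_, ?_⟩
  · rw [lq_mk]
    unfold lz
    rw [q1, padicValNat_self]
    omega
  · rw [mk_inv, ← map_mul, lq_mk, lq_mk, lz_prim p hx]
    change lz p (star q * x.1) + 1 ≤ _
    have h0 : star q * x.1 ≠ 0 := Mq_ne (st ⟨q, hq⟩ * x)
    have h1 := (Dv_pow_iff p h0 1).1 (by simpa using q2)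
    unfold lz
    rw [nn_mul, nn_star, q1, padicValNat.mul hp.out.ne_zero (nn_ne_zero (Mq_ne x)),
      padicValNat_self]
    push_cast
    omega

end

/-- the two length functions -/
def ll : Bool → GQ → ℕ
  | false, g => (lq 3 g).toNat
  | true, g => (lq 5 g).toNat

theorem ll_false (g : GQ) : (ll false g : ℤ) = lq 3 g := Int.toNat_of_nonneg (lq_nonneg 3 g)

theorem ll_true (g : GQ) : (ll true g : ℤ) = lq 5 g := Int.toNat_of_nonneg (lq_nonneg 5 g)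

theorem fin_small : {x : LQ | nn x ≤ 5}.Finite := by
  have : {x : LQ | nn x ≤ 5} ⊆ (fun q : ℤ × ℤ × ℤ × ℤ => qq q.1 q.2.1 q.2.2.1 q.2.2.2) ''
      (Set.Icc (-5) 5 ×ˢ Set.Icc (-5) 5 ×ˢ Set.Icc (-5) 5 ×ˢ Set.Icc (-5) 5) := by
    intro x hx
    have h : (nn x : ℤ) ≤ 5 := by exact_mod_cast hx
    rw [nn_cast] at h
    have a := sq_nonneg x.re
    have b := sq_nonneg x.imI
    have c := sq_nonneg x.imJ
    have d := sq_nonneg x.imK
    refine ⟨(x.re, x.imI, x.imJ, x.imK), ⟨⟨?_, ?_⟩, ⟨?_, ?_⟩, ⟨?_, ?_⟩, ⟨?_, ?_⟩⟩, rfl⟩ <;>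
      dsimp only <;> nlinarith
  exact (Set.Finite.image _ ((Set.finite_Icc _ _).prod ((Set.finite_Icc _ _).prod
    ((Set.finite_Icc _ _).prod (Set.finite_Icc _ _))))).subset this

/-- the data -/
noncomputable def pd : PD GQ where
  l := ll
  l_one := by
    have : ∀ (p : ℕ) [hp : Fact p.Prime], lq p 1 = 0 := by
      intro p hp
      rw [← map_one mk]
      apply lq_of_nn
      rw [Submonoid.coe_one, nn_one]
      exact hp.out.not_dvd_one
    rintro (_ | _) <;> simp [ll, this]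
  l_inv := by rintro (_ | _) g <;> simp [ll, lq_inv]
  l_mul := by
    rintro (_ | _) g h
    · have := lq_mul 3 g h
      rw [← ll_false, ← ll_false, ← ll_false] at this
      exact_mod_cast this
    · have := lq_mul 5 g h
      rw [← ll_true, ← ll_true, ← ll_true] at this
      exact_mod_cast this
  four := by
    rintro (_ | _) g h k
    · simp only [ll_false]
      exact lq_four 3 (by norm_num) g h k
    · simp only [ll_true]
      exact lq_four 5 (by norm_num) g h k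
  fac := by
    rintro (_ | _) g hg
    · obtain ⟨q, q1, q2, q3⟩ := lq_fac 3 fac3 (by norm_num) g
        (by rw [← ll_false]; exact_mod_cast hg)
      have q4 := lq_of_nn 5 (x := q) (by rw [q1]; norm_num)
      rw [← ll_false] at q2
      rw [← ll_false, ← ll_false] at q3
      rw [← ll_true] at q4
      exact ⟨mk q, by exact_mod_cast q2, by exact_mod_cast q4, by exact_mod_cast q3⟩
    · obtain ⟨q, q1, q2, q3⟩ := lq_fac 5 fac5 (by norm_num) g
        (by rw [← ll_true]; exact_mod_cast hg)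
      have q4 := lq_of_nn 3 (x := q) (by rw [q1]; norm_num)
      rw [← ll_true] at q2
      rw [← ll_true, ← ll_true] at q3
      rw [← ll_false] at q4
      exact ⟨mk q, by exact_mod_cast q2, by exact_mod_cast q4, by exact_mod_cast q3⟩
  fin := by
    have h1 : {x : Mq | nn x.1 ≤ 5}.Finite :=
      fin_small.preimage (f := fun x : Mq => x.1) Subtype.val_injective.injOn
    refine (h1.image mk).subset ?_
    intro g hg
    obtain ⟨x, rfl, h3, h5⟩ := exists_rep2 g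
    refine ⟨x, ?_, rfl⟩
    have a := ll_false (mk x)
    have b := ll_true (mk x)
    rw [lq_mk, lz_prim 3 h3] at a
    rw [lq_mk, lz_prim 5 h5] at b
    have a' : ll false (mk x) = padicValNat 3 (nn x.1) := by exact_mod_cast a
    have b' : ll true (mk x) = padicValNat 5 (nn x.1) := by exact_mod_cast b
    have c := Mq_nn x
    change ll false (mk x) + ll true (mk x) ≤ 1 at hg
    rw [a', b'] at hg
    change nn x.1 ≤ 5
    rw [c]
    generalize padicValNat 3 (nn x.1) = i at hg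
    generalize padicValNat 5 (nn x.1) = j at hg
    have : (i = 0 ∧ j = 0) ∨ (i = 1 ∧ j = 0) ∨ (i = 0 ∧ j = 1) := by omega
    rcases this with ⟨rfl, rfl⟩ | ⟨rfl, rfl⟩ | ⟨rfl, rfl⟩ <;> norm_num

end Pool.Agent.H841Z.Mal
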