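import Pool.Agent.H841Z.Mal.Grp
set_option autoImplicit false

/-! The normaliser of a quadratic subfield is almost malnormal and not strongly quasiconvex. -/

namespace Pool.Agent.H841Z.Mal

open Quaternion Pool.Agent.Helper548.HB

/-- the pure quaternion i + j -/
def uu : LQ := qq 0 1 1 0

/-- commutation up to the sign `e` -/
def Cm (e : ℤ) (x v : LQ) : Prop := x * v = e • (v * x)

theorem Cm.mul {e f : ℤ} {x y v : LQ} (h : Cm e x v) (k : Cm f y v) : Cm (e * f) (x * y) v := by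
  unfold Cm at *
  rw [mul_assoc, k, mul_smul_comm, ← mul_assoc, h, smul_mul_assoc, smul_smul, mul_comm f e,
    mul_assoc]

theorem Cm.star {e : ℤ} (he : e * e = 1) {x v : LQ} (hv : star v = -v) (h : Cm e x v) :
    Cm e (star x) v := by
  unfold Cm at *
  have h1 := congrArg Star.star h
  rw [star_mul, star_zsmul, star_mul, hv, neg_mul, mul_neg, smul_neg, neg_inj] at h1
  rw [h1, smul_smul, he, one_smul]

theorem Cm.of_smul {e m : ℤ} (hm : m ≠ 0) {x v : LQ} (h : Cm e (m • x) v) : Cm e x v := by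
  unfold Cm at *
  apply smul_cancel hm
  rw [smul_mul_assoc, mul_smul_comm, smul_comm] at h
  exact h

theorem Cm.smul {e : ℤ} (m : ℤ) {x v : LQ} (h : Cm e x v) : Cm e (m • x) v := by
  unfold Cm at *
  rw [smul_mul_assoc, mul_smul_comm, smul_comm, h]

theorem Cm.congr {e : ℤ} {x y : Mq} {v : LQ} (hxy : mk x = mk y) (h : Cm e x.1 v) : Cm e y.1 v := by
  obtain ⟨m, n, hm, hn, k⟩ := (mk_eq _ _).1 hxy
  have := h.smul m
  rw [k] at this
  exact this.of_smul hn

theorem star_uu : star uu = -uu := by ext <;> simp [uu]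

theorem Cm_one_iff (x : LQ) : Cm 1 x uu ↔ x.imK = 0 ∧ x.imI = x.imJ := by
  unfold Cm
  rw [one_smul]
  constructor
  · intro h
    have a := congrArg (·.imI) h
    have b := congrArg (·.imK) h
    simp [uu] at a b
    constructor <;> linarith
  · rintro ⟨a, b⟩
    ext <;> simp [uu, a, b]

/-- the subgroup -/
def HH : Subgroup GQ where
  carrier := {g | ∃ x : Mq, mk x = g ∧ ∃ e : ℤ, e * e = 1 ∧ Cm e x.1 uu}
  one_mem' := ⟨1, map_one _, 1, rfl, by simp [Cm]⟩
  mul_mem' := by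
    rintro _ _ ⟨x, rfl, e, he, hx⟩ ⟨y, rfl, f, hf, hy⟩
    refine ⟨x * y, map_mul _ _ _, e * f, ?_, hx.mul hy⟩
    calc e * f * (e * f) = (e * e) * (f * f) := by ring
      _ = 1 := by rw [he, hf, one_mul]
  inv_mem' := by
    rintro _ ⟨x, rfl, e, he, hx⟩
    exact ⟨st x, (mk_inv x).symm, e, he, hx.star he star_uu⟩

theorem conj_pure (w : LQ) : star (w * uu * star w) = -(w * uu * star w) := by
  rw [star_mul, star_mul, star_star, star_uu, neg_mul, mul_neg, mul_assoc]

theorem re_zero {v : LQ} (h : star v = -v) : v.re = 0 := by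
  have := congrArg (·.re) h
  simp at this
  linarith

theorem Cm_conj {e : ℤ} {w x : LQ} (hw : w ≠ 0) (h : Cm e (star w * x * w) uu) :
    Cm e x (w * uu * star w) := by
  unfold Cm at *
  have hN : (nn w : ℤ) ≠ 0 := by exact_mod_cast nn_ne_zero hw
  apply smul_cancel hN
  have h1 : w * (star w * x * w * uu) * star w = (nn w : ℤ) • (x * (w * uu * star w)) := by
    calc w * (star w * x * w * uu) * star w = (w * star w) * (x * (w * uu * star w)) := by
          simp only [mul_assoc]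
      _ = _ := by rw [mul_star_self', smul_mul_assoc, one_mul]
  have h2 : w * (uu * (star w * x * w)) * star w = (nn w : ℤ) • ((w * uu * star w) * x) := by
    calc w * (uu * (star w * x * w)) * star w = ((w * uu * star w) * x) * (w * star w) := by
          simp only [mul_assoc]
      _ = _ := by rw [mul_star_self', mul_smul_comm, mul_one]
  rw [← h1, h, mul_smul_comm, smul_mul_assoc, h2, smul_comm]

theorem mem_of_par (w : Mq) (h1 : (w.1 * uu * star w.1).imK = 0)
    (h2 : (w.1 * uu * star w.1).imI = (w.1 * uu * star w.1).imJ) : mk w ∈ HH := by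
  set v := w.1 * uu * star w.1 with hv
  have hN : (nn w.1 : ℤ) ≠ 0 := by exact_mod_cast nn_ne_zero (Mq_ne w)
  have h0 : v.re = 0 := re_zero (conj_pure w.1)
  have e1 : v = v.imI • uu := by
    ext <;> simp only [Quaternion.re_smul, Quaternion.imI_smul, Quaternion.imJ_smul,
      Quaternion.imK_smul, smul_eq_mul, uu, qq_re, qq_imI, qq_imJ, qq_imK] <;> simp [h0, h1, h2]
  have e2 : (nn v : ℤ) = nn w.1 * 2 * nn w.1 := by
    rw [hv, nn_mul, nn_mul, nn_star]
    have : (nn uu : ℤ) = 2 := by rw [nn_cast]; simp [uu]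
    push_cast
    rw [this]
  rw [nn_cast, h0, h1, ← h2] at e2
  have e3 : (v.imI - nn w.1) * (v.imI + nn w.1) = 0 := by linarith
  have e4 : v * w.1 = (nn w.1 : ℤ) • (w.1 * uu) := by
    rw [hv, mul_assoc, star_mul_self', mul_smul_comm, mul_one]
  have key : ∀ e : ℤ, v.imI = nn w.1 * e → Cm e w.1 uu := by
    intro e he
    unfold Cm
    apply smul_cancel hN
    rw [← e4, e1, smul_mul_assoc, smul_smul, ← he]
  rcases mul_eq_zero.1 e3 with h | h
  · exact ⟨w, rfl, 1, rfl, key 1 (by linarith)⟩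
  · exact ⟨w, rfl, -1, rfl, key (-1) (by linarith)⟩

theorem scalar_of {z v : LQ} (h1 : Cm 1 z uu) (h2 : Cm 1 z v)
    (h3 : ¬ (v.imK = 0 ∧ v.imI = v.imJ)) : z = z.re • (1 : LQ) := by
  obtain ⟨a, b⟩ := (Cm_one_iff z).1 h1
  unfold Cm at h2
  rw [one_smul] at h2
  have c := congrArg (·.imI) h2
  have d := congrArg (·.imK) h2
  simp only [Quaternion.imI_mul, Quaternion.imK_mul, a, b] at c d
  have : z.imJ = 0 := by
    by_contra hz
    apply h3
    constructor
    · have : z.imJ * v.imK = 0 := by linarith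
      exact (mul_eq_zero.1 this).resolve_left hz
    · have : z.imJ * (v.imI - v.imJ) = 0 := by linarith
      have := (mul_eq_zero.1 this).resolve_left hz
      linarith
  ext <;> simp only [Quaternion.re_smul, Quaternion.imI_smul, Quaternion.imJ_smul,
      Quaternion.imK_smul, smul_eq_mul, Quaternion.re_one, Quaternion.imI_one, Quaternion.imJ_one,
      Quaternion.imK_one] <;> simp [a, b, this]

theorem malnormal : AlmostMalnormal HH := by
  intro g hg
  obtain ⟨w, rfl⟩ := mk_surj g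
  set v := w.1 * uu * star w.1 with hv
  have hv3 : ¬ (v.imK = 0 ∧ v.imI = v.imJ) := fun h => hg (mem_of_par w h.1 h.2)
  let A : ℤ × ℤ → Set GQ := fun e => {h | ∃ x : Mq, mk x = h ∧ Cm e.1 x.1 uu ∧ Cm e.2 x.1 v}
  have hA : ∀ e ∈ ({1, -1} : Set ℤ) ×ˢ ({1, -1} : Set ℤ), (A e).Finite := by
    rintro ⟨e, f⟩ ⟨he, hf⟩
    have he' : e * e = 1 := by rcases he with rfl | rfl <;> rfl
    have hf' : f * f = 1 := by rcases hf with rfl | rfl <;> rfl
    apply Set.Subsingleton.finite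
    rintro _ ⟨x, rfl, x1, x2⟩ _ ⟨y, rfl, y1, y2⟩
    have z1 := (x1.star he' star_uu).mul y1
    have z2 := (x2.star hf' (conj_pure w.1)).mul y2
    rw [he'] at z1
    rw [hf'] at z2
    have z3 := scalar_of z1 z2 hv3
    have z4 : star x.1 * y.1 ≠ 0 := Mq_ne (st x * y)
    rw [mk_eq]
    refine ⟨(star x.1 * y.1).re, nn x.1, ?_, by exact_mod_cast nn_ne_zero (Mq_ne x), ?_⟩
    · intro h0
      rw [h0, zero_smul] at z3
      exact z4 z3
    · have : x.1 * (star x.1 * y.1) = (nn x.1 : ℤ) • y.1 := by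
        rw [← mul_assoc, mul_star_self', smul_mul_assoc, one_mul]
      rw [← this]
      conv_rhs => rw [z3]
      rw [mul_smul_comm, mul_one]
  refine (Set.Finite.biUnion (Set.toFinite _) hA).subset ?_
  rintro _ ⟨⟨x, rfl, e, he, hx⟩, h, ⟨y, rfl, f, hf, hy⟩, hxy⟩
  have hy' : mk y = mk (st w * x * w) := by
    rw [map_mul, map_mul, ← mk_inv, hxy]
    group
  have hx2 : Cm f x.1 v := Cm_conj (Mq_ne w) (Cm.congr hy' hy)
  simp only [Set.mem_iUnion]
  refine ⟨(e, f), ⟨?_, ?_⟩, x, rfl, hx, hx2⟩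
  · rcases Int.eq_one_or_neg_one_of_mul_eq_one he with h | h <;> simp [h]
  · rcases Int.eq_one_or_neg_one_of_mul_eq_one hf with h | h <;> simp [h]

/-- the element 1 + i + j -/
def aa : Mq := ⟨qq 1 1 1 0, Mq_of_nn (by
  have : (nn (qq 1 1 1 0) : ℤ) = 3 := by rw [nn_cast]; simp
  have : nn (qq 1 1 1 0) = 3 := by exact_mod_cast this
  rw [this]; norm_num)⟩

/-- the element k -/
def kk : Mq := ⟨qq 0 0 0 1, Mq_of_nn (by
  have : (nn (qq 0 0 0 1) : ℤ) = 1 := by rw [nn_cast]; simp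
  have : nn (qq 0 0 0 1) = 1 := by exact_mod_cast this
  rw [this]; norm_num)⟩

/-- the element 1 + 2 i -/
def bb : Mq := ⟨qq 1 2 0 0, Mq_of_nn (by
  have : (nn (qq 1 2 0 0) : ℤ) = 5 := by rw [nn_cast]; simp
  have : nn (qq 1 2 0 0) = 5 := by exact_mod_cast this
  rw [this]; norm_num)⟩

theorem nn_aa : nn aa.1 = 3 := by
  have : (nn (qq 1 1 1 0) : ℤ) = 3 := by rw [nn_cast]; simp
  exact_mod_cast this

theorem nn_kk : nn kk.1 = 1 := by
  have : (nn (qq 0 0 0 1) : ℤ) = 1 := by rw [nn_cast]; simp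
  exact_mod_cast this

theorem nn_bb : nn bb.1 = 5 := by
  have : (nn (qq 1 2 0 0) : ℤ) = 5 := by rw [nn_cast]; simp
  exact_mod_cast this

theorem aa_cm : Cm 1 aa.1 uu := (Cm_one_iff _).2 ⟨rfl, rfl⟩

theorem kk_cm : Cm (-1) kk.1 uu := by
  unfold Cm
  rw [neg_smul, one_smul]
  ext <;> simp [kk, uu]

theorem d5 : ∀ s t : ZMod 5, s ^ 2 + t ^ 2 + t ^ 2 + 0 ^ 2 = 0 → s = 0 ∧ t = 0 := by decide

theorem d3 : ∀ s t : ZMod 3, s ^ 2 + t ^ 2 + t ^ 2 + 0 ^ 2 = 0 → s - t = 0 ∨ s + t = 0 := by decide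

theorem comm_mem (K : Subgroup GQ) (ha : mk aa ∈ K) (n : ℕ) :
    ∀ x : Mq, nn x.1 ≤ n → Cm 1 x.1 uu → mk x ∈ K := by
  induction n with
  | zero =>
    intro x hx
    exact absurd (Nat.le_zero.1 hx) (nn_ne_zero (Mq_ne x))
  | succ n ih =>
    intro x hx hc
    obtain ⟨a, b⟩ := (Cm_one_iff _).1 hc
    have hN := nn_cast x.1
    rw [a, b] at hN
    have step : ∀ c : Mq, mk c ∈ K → Cm 1 c.1 uu → ∀ p : ℕ, 1 < p → nn c.1 < p * p →
        Dv p (c.1 * x.1) → mk x ∈ K := by
      intro c hcK hc1 p hp hlt hd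
      obtain ⟨y, hy⟩ := (Dv_iff _ _).1 hd
      have hyM : y ∈ Mq := Mq_of_smul (m := p) (by rw [← hy]; exact (c * x).2)
      have hp0 : (p : ℤ) ≠ 0 := by exact_mod_cast (by omega : p ≠ 0)
      have e1 : mk (c * x) = mk ⟨y, hyM⟩ := by
        rw [mk_eq]
        exact ⟨1, p, one_ne_zero, hp0, by rw [one_smul]; exact hy⟩
      have e2 : nn c.1 * nn x.1 = p * p * nn y := by
        rw [← nn_mul, hy, nn_smul]; simp
      have e3 : nn y < nn x.1 := by
        by_contra hh
        have h1 : nn x.1 ≤ nn y := not_lt.1 hh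
        have h2 : 0 < nn x.1 := Nat.pos_of_ne_zero (nn_ne_zero (Mq_ne x))
        nlinarith
      have e4 : Cm 1 y uu := by
        have := hc1.mul hc
        rw [hy] at this
        exact this.of_smul hp0
      have e5 := ih ⟨y, hyM⟩ (by change nn y ≤ n; omega) e4
      rw [← e1, map_mul] at e5
      exact (K.mul_mem_cancel_left hcK).1 e5
    by_cases h5 : 5 ∣ nn x.1
    · have h1 : ((5 : ℕ) : ℤ) ∣ nn x.1 := by exact_mod_cast h5
      rw [hN, ← ZMod.intCast_zmod_eq_zero_iff_dvd] at h1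
      push_cast at h1
      obtain ⟨k1, k2⟩ := d5 _ _ (by simpa using h1)
      rw [ZMod.intCast_zmod_eq_zero_iff_dvd] at k1 k2
      refine step 1 (by rw [map_one]; exact K.one_mem) (by simp [Cm]) 5 (by norm_num)
        (by rw [Submonoid.coe_one, nn_one]; norm_num) ?_
      rw [Submonoid.coe_one, one_mul]
      exact ⟨k1, b ▸ k2, k2, by simp [a]⟩
    by_cases h3 : 3 ∣ nn x.1
    · have h1 : ((3 : ℕ) : ℤ) ∣ nn x.1 := by exact_mod_cast h3
      rw [hN, ← ZMod.intCast_zmod_eq_zero_iff_dvd] at h1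
      push_cast at h1
      rcases d3 _ _ (by simpa using h1) with k | k
      · have k' : ((3 : ℕ) : ℤ) ∣ x.1.re - x.1.imJ := by
          rw [← ZMod.intCast_zmod_eq_zero_iff_dvd]; push_cast; exact k
        refine step (st aa) (by rw [← mk_inv]; exact K.inv_mem ha) (aa_cm.star rfl star_uu) 3
          (by norm_num) (by change nn (star aa.1) < _; rw [nn_star, nn_aa]; norm_num) ?_
        obtain ⟨c, hc⟩ := k'
        refine ⟨⟨c + x.1.imJ, ?_⟩, ⟨-c, ?_⟩, ⟨-c, ?_⟩, ⟨0, ?_⟩⟩ <;> simp [st, aa, a, b] <;>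
          push_cast at hc <;> linarith
      · have k' : ((3 : ℕ) : ℤ) ∣ x.1.re + x.1.imJ := by
          rw [← ZMod.intCast_zmod_eq_zero_iff_dvd]; push_cast; exact k
        refine step aa ha aa_cm 3 (by norm_num) (by rw [nn_aa]; norm_num) ?_
        obtain ⟨c, hc⟩ := k'
        refine ⟨⟨c - x.1.imJ, ?_⟩, ⟨c, ?_⟩, ⟨c, ?_⟩, ⟨0, ?_⟩⟩ <;> simp [aa, a, b] <;>
          push_cast at hc <;> linarith
    have h1 := Mq_nn x
    rw [padicValNat.eq_zero_of_not_dvd h3, padicValNat.eq_zero_of_not_dvd h5] at h1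
    rw [h1] at hN
    norm_num at hN
    have t0 : x.1.imJ = 0 := by nlinarith [sq_nonneg x.1.re, sq_nonneg x.1.imJ]
    have r0 : x.1.re ≠ 0 := by
      intro h
      rw [h, t0] at hN
      norm_num at hN
    have : mk x = 1 := by
      rw [← map_one mk, mk_eq]
      refine ⟨1, x.1.re, one_ne_zero, r0, ?_⟩
      rw [one_smul, Submonoid.coe_one]
      ext <;> simp only [Quaternion.re_smul, Quaternion.imI_smul, Quaternion.imJ_smul,
        Quaternion.imK_smul, smul_eq_mul, Quaternion.re_one, Quaternion.imI_one,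
        Quaternion.imJ_one, Quaternion.imK_one] <;> simp [a, b, t0]
    rw [this]
    exact K.one_mem

theorem HH_eq : HH = Subgroup.closure {mk aa, mk kk} := by
  apply le_antisymm
  · rintro _ ⟨x, rfl, e, he, hx⟩
    have ha : mk aa ∈ Subgroup.closure {mk aa, mk kk} := Subgroup.subset_closure (by simp)
    have hk : mk kk ∈ Subgroup.closure {mk aa, mk kk} := Subgroup.subset_closure (by simp)
    rcases Int.eq_one_or_neg_one_of_mul_eq_one he with rfl | rfl
    · exact comm_mem _ ha _ x le_rfl hx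
    · have := comm_mem _ ha _ (kk * x) le_rfl (kk_cm.mul hx)
      rw [map_mul] at this
      exact (Subgroup.mul_mem_cancel_left _ hk).1 this
  · rw [Subgroup.closure_le]
    rintro _ (rfl | rfl)
    · exact ⟨aa, rfl, 1, rfl, aa_cm⟩
    · exact ⟨kk, rfl, -1, rfl, kk_cm⟩

theorem HH_fg : HH.FG := by
  rw [HH_eq]
  exact (Subgroup.fg_iff _).2 ⟨_, rfl, Set.toFinite _⟩

theorem HH_five (h : GQ) (hh : h ∈ HH) : pd.l true h = 0 := by
  rw [HH_eq] at hh
  induction hh using Subgroup.closure_induction with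
  | mem x hx =>
    have : (ll true x : ℤ) = 0 := by
      rw [ll_true]
      rcases hx with rfl | rfl
      · exact lq_of_nn 5 (by rw [nn_aa]; norm_num)
      · exact lq_of_nn 5 (by rw [nn_kk]; norm_num)
    exact_mod_cast this
  | one => exact pd.l_one _
  | mul x y _ _ hx hy =>
    have := pd.l_mul true x y
    omega
  | inv x _ hx => rw [pd.l_inv]; exact hx

theorem not_sqc : ¬ StronglyQuasiconvex pd.S HH := by
  refine pd.not_sqc HH HH_five (fun n => ?_) (fun n => ?_)
  · refine ⟨mk aa ^ (n + 1), HH.pow_mem ⟨aa, rfl, 1, rfl, aa_cm⟩ _, ?_⟩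
    have : (ll false (mk aa ^ (n + 1)) : ℤ) = n + 1 := by
      rw [ll_false, ← map_pow, lq_mk, SubmonoidClass.coe_pow]
      exact lz_pow 3 (by norm_num) _ rfl nn_aa n
    change n ≤ ll false _
    omega
  · refine ⟨mk bb ^ (n + 1), ?_⟩
    have : (ll true (mk bb ^ (n + 1)) : ℤ) = n + 1 := by
      rw [ll_true, ← map_pow, lq_mk, SubmonoidClass.coe_pow]
      exact lz_pow 5 (by norm_num) _ rfl nn_bb n
    change n ≤ ll true _
    omega

theorem main : ∃ (G : Type) (_ : Group G) (S : Finset G),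
    Subgroup.closure (S : Set G) = ⊤ ∧ Nonempty (HHG G S) ∧
    ∃ H : Subgroup G, H.FG ∧ AlmostMalnormal H ∧ ¬ StronglyQuasiconvex S H :=
  ⟨GQ, inferInstance, pd.S, pd.closure_S, pd.nonempty_hhg, HH, HH_fg, malnormal, not_sqc⟩

end Pool.Agent.H841Z.Mal
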