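import Mathlib
set_option autoImplicit false

/-! Arithmetic of integral quaternions: length functions at odd primes. -/

namespace Pool.Agent.H841Z.Mal

open Quaternion

/-- integral quaternions -/
abbrev LQ : Type := ℍ[ℤ]

/-- quaternion with given coordinates -/
def qq (a b c d : ℤ) : LQ := ⟨a, b, c, d⟩

@[simp] theorem qq_re (a b c d : ℤ) : (qq a b c d).re = a := rfl
@[simp] theorem qq_imI (a b c d : ℤ) : (qq a b c d).imI = b := rfl
@[simp] theorem qq_imJ (a b c d : ℤ) : (qq a b c d).imJ = c := rfl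
@[simp] theorem qq_imK (a b c d : ℤ) : (qq a b c d).imK = d := rfl

/-- divisibility of all coordinates -/
def Dv (n : ℤ) (x : LQ) : Prop := n ∣ x.re ∧ n ∣ x.imI ∧ n ∣ x.imJ ∧ n ∣ x.imK

theorem Dv_iff (n : ℤ) (x : LQ) : Dv n x ↔ ∃ y : LQ, x = n • y := by
  constructor
  · rintro ⟨⟨a, ha⟩, ⟨b, hb⟩, ⟨c, hc⟩, ⟨d, hd⟩⟩
    refine ⟨⟨a, b, c, d⟩, ?_⟩
    ext <;> simp [ha, hb, hc, hd]
  · rintro ⟨y, rfl⟩
    refine ⟨⟨y.re, ?_⟩, ⟨y.imI, ?_⟩, ⟨y.imJ, ?_⟩, ⟨y.imK, ?_⟩⟩ <;> simp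

theorem Dv.mul_right {n : ℤ} {x : LQ} (h : Dv n x) (y : LQ) : Dv n (x * y) := by
  obtain ⟨z, rfl⟩ := (Dv_iff _ _).1 h
  exact (Dv_iff _ _).2 ⟨z * y, smul_mul_assoc _ _ _⟩

theorem Dv.mul_left {n : ℤ} {x : LQ} (h : Dv n x) (y : LQ) : Dv n (y * x) := by
  obtain ⟨z, rfl⟩ := (Dv_iff _ _).1 h
  exact (Dv_iff _ _).2 ⟨y * z, mul_smul_comm _ _ _⟩

theorem Dv.add {n : ℤ} {x y : LQ} (h : Dv n x) (h' : Dv n y) : Dv n (x + y) := by
  obtain ⟨z, rfl⟩ := (Dv_iff _ _).1 h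
  obtain ⟨w, rfl⟩ := (Dv_iff _ _).1 h'
  exact (Dv_iff _ _).2 ⟨z + w, (smul_add _ _ _).symm⟩

theorem Dv.of_smul {n m : ℤ} {x : LQ} (h : Dv n (m • x)) (hc : IsCoprime n m) : Dv n x := by
  obtain ⟨a, b, c, d⟩ := h
  simp only [Quaternion.re_smul, Quaternion.imI_smul, Quaternion.imJ_smul, Quaternion.imK_smul,
    smul_eq_mul] at a b c d
  exact ⟨hc.dvd_of_dvd_mul_left a, hc.dvd_of_dvd_mul_left b, hc.dvd_of_dvd_mul_left c,
    hc.dvd_of_dvd_mul_left d⟩

theorem Dv_star (n : ℤ) (x : LQ) : Dv n (star x) ↔ Dv n x := by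
  simp [Dv]

/-- content -/
def cont (x : LQ) : ℕ := Nat.gcd (Int.gcd x.re x.imI) (Int.gcd x.imJ x.imK)

theorem Dv_iff_cont (n : ℕ) (x : LQ) : Dv n x ↔ n ∣ cont x := by
  unfold cont Dv
  rw [Nat.dvd_gcd_iff, ← Int.natCast_dvd_natCast, ← Int.natCast_dvd_natCast (n := Int.gcd _ _),
    Int.dvd_coe_gcd_iff, Int.dvd_coe_gcd_iff]
  tauto

theorem cont_smul (m : ℤ) (x : LQ) : cont (m • x) = m.natAbs * cont x := by
  unfold cont
  simp only [Quaternion.re_smul, Quaternion.imI_smul, Quaternion.imJ_smul, Quaternion.imK_smul,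
    smul_eq_mul, Int.gcd_mul_left, Nat.gcd_mul_left]

theorem cont_ne_zero {x : LQ} (h : x ≠ 0) : cont x ≠ 0 := by
  intro h0
  apply h
  unfold cont at h0
  rw [Nat.gcd_eq_zero_iff, Int.gcd_eq_zero_iff, Int.gcd_eq_zero_iff] at h0
  ext <;> simp [h0.1.1, h0.1.2, h0.2.1, h0.2.2]

theorem cont_star (x : LQ) : cont (star x) = cont x := by
  unfold cont
  simp

/-- norm -/
def nn (x : LQ) : ℕ := (normSq x).natAbs

theorem nn_cast (x : LQ) : (nn x : ℤ) = x.re ^ 2 + x.imI ^ 2 + x.imJ ^ 2 + x.imK ^ 2 := by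
  unfold nn
  rw [Int.natCast_natAbs, normSq_def', abs_of_nonneg (by positivity)]

theorem nn_mul (x y : LQ) : nn (x * y) = nn x * nn y := by
  unfold nn
  rw [map_mul, Int.natAbs_mul]

theorem nn_one : nn 1 = 1 := by simp [nn]

theorem nn_star (x : LQ) : nn (star x) = nn x := by simp [nn]

theorem nn_smul (m : ℤ) (x : LQ) : nn (m • x) = m.natAbs * m.natAbs * nn x := by
  have : (nn (m • x) : ℤ) = (m.natAbs * m.natAbs * nn x : ℕ) := by
    push_cast
    rw [nn_cast, nn_cast, abs_mul_abs_self]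
    simp only [Quaternion.re_smul, Quaternion.imI_smul, Quaternion.imJ_smul, Quaternion.imK_smul,
      smul_eq_mul]
    ring
  exact_mod_cast this

theorem nn_ne_zero {x : LQ} (h : x ≠ 0) : nn x ≠ 0 := by
  intro h0
  apply h
  have := nn_cast x
  rw [h0] at this
  simp only [Nat.cast_zero] at this
  have a := sq_nonneg x.re
  have b := sq_nonneg x.imI
  have c := sq_nonneg x.imJ
  have d := sq_nonneg x.imK
  ext
  · exact pow_eq_zero_iff (two_ne_zero) |>.1 (by linarith)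
  · exact pow_eq_zero_iff (two_ne_zero) |>.1 (by linarith)
  · exact pow_eq_zero_iff (two_ne_zero) |>.1 (by linarith)
  · exact pow_eq_zero_iff (two_ne_zero) |>.1 (by linarith)

theorem ne_zero_of_nn {x : LQ} (h : nn x ≠ 0) : x ≠ 0 := by
  rintro rfl
  exact h (by simp [nn])

theorem star_mul_self' (x : LQ) : star x * x = (nn x : ℤ) • (1 : LQ) := by
  rw [nn_cast]
  ext <;> simp only [Quaternion.re_smul, Quaternion.imI_smul, Quaternion.imJ_smul, Quaternion.imK_smul,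
    smul_eq_mul, Quaternion.re_mul, Quaternion.imI_mul, Quaternion.imJ_mul, Quaternion.imK_mul,
    Quaternion.re_add, Quaternion.imI_add, Quaternion.imJ_add, Quaternion.imK_add,
    Quaternion.re_sub, Quaternion.imI_sub, Quaternion.imJ_sub, Quaternion.imK_sub,
    Quaternion.re_star, Quaternion.imI_star, Quaternion.imJ_star, Quaternion.imK_star,
    Quaternion.re_one, Quaternion.imI_one, Quaternion.imJ_one, Quaternion.imK_one] <;> ring

theorem mul_star_self' (x : LQ) : x * star x = (nn x : ℤ) • (1 : LQ) := by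
  rw [nn_cast]
  ext <;> simp only [Quaternion.re_smul, Quaternion.imI_smul, Quaternion.imJ_smul, Quaternion.imK_smul,
    smul_eq_mul, Quaternion.re_mul, Quaternion.imI_mul, Quaternion.imJ_mul, Quaternion.imK_mul,
    Quaternion.re_add, Quaternion.imI_add, Quaternion.imJ_add, Quaternion.imK_add,
    Quaternion.re_sub, Quaternion.imI_sub, Quaternion.imJ_sub, Quaternion.imK_sub,
    Quaternion.re_star, Quaternion.imI_star, Quaternion.imJ_star, Quaternion.imK_star,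
    Quaternion.re_one, Quaternion.imI_one, Quaternion.imJ_one, Quaternion.imK_one] <;> ring

theorem mul_ne_zero' {x y : LQ} (hx : x ≠ 0) (hy : y ≠ 0) : x * y ≠ 0 := by
  apply ne_zero_of_nn
  rw [nn_mul]
  exact mul_ne_zero (nn_ne_zero hx) (nn_ne_zero hy)

theorem smul_ne_zero'' {m : ℤ} {y : LQ} (hx : m ≠ 0) (hy : y ≠ 0) : m • y ≠ 0 := by
  apply ne_zero_of_nn
  rw [nn_smul]
  have := Int.natAbs_ne_zero.2 hx
  exact mul_ne_zero (mul_ne_zero this this) (nn_ne_zero hy)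

theorem smul_cancel {m : ℤ} (hm : m ≠ 0) {x y : LQ} (h : m • x = m • y) : x = y := by
  by_contra hne
  apply smul_ne_zero'' hm (sub_ne_zero.2 hne)
  rw [smul_sub, h, sub_self]

/-- valuation of the content -/
def ka (p : ℕ) (x : LQ) : ℕ := padicValNat p (cont x)

/-- the length at `p` -/
def lz (p : ℕ) (x : LQ) : ℤ := (padicValNat p (nn x) : ℤ) - 2 * ka p x

section
variable (p : ℕ) [hp : Fact p.Prime]

theorem Dv_pow_iff {x : LQ} (hx : x ≠ 0) (k : ℕ) : Dv ((p : ℤ) ^ k) x ↔ k ≤ ka p x := by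
  have := Dv_iff_cont (p ^ k) x
  push_cast at this
  rw [this, padicValNat_dvd_iff_le (cont_ne_zero hx)]
  rfl

theorem ka_smul {m : ℤ} (hm : m ≠ 0) {x : LQ} (hx : x ≠ 0) :
    ka p (m • x) = padicValNat p m.natAbs + ka p x := by
  unfold ka
  rw [cont_smul, padicValNat.mul (Int.natAbs_ne_zero.2 hm) (cont_ne_zero hx)]

theorem lz_smul {m : ℤ} (hm : m ≠ 0) {x : LQ} (hx : x ≠ 0) : lz p (m • x) = lz p x := by
  unfold lz
  have := Int.natAbs_ne_zero.2 hm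
  rw [ka_smul p hm hx, nn_smul, padicValNat.mul (mul_ne_zero this this) (nn_ne_zero hx),
    padicValNat.mul this this]
  push_cast
  ring

theorem ka_prim {x : LQ} (h : ¬ Dv p x) : ka p x = 0 := by
  have hx : x ≠ 0 := by rintro rfl; exact h (by simp [Dv])
  by_contra h0
  apply h
  have := (Dv_pow_iff p hx 1).2 (by omega)
  simpa using this

theorem exists_prim {x : LQ} (hx : x ≠ 0) : ∃ (k : ℕ) (y : LQ), x = ((p : ℤ) ^ k) • y ∧ ¬ Dv p y := by
  obtain ⟨y, hy⟩ := (Dv_iff _ _).1 ((Dv_pow_iff p hx (ka p x)).2 le_rfl)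
  refine ⟨ka p x, y, hy, fun h => ?_⟩
  obtain ⟨z, hz⟩ := (Dv_iff _ _).1 h
  have : Dv ((p : ℤ) ^ (ka p x + 1)) x := by
    refine (Dv_iff _ _).2 ⟨z, ?_⟩
    rw [pow_succ, mul_smul, ← hz, ← hy]
  have := (Dv_pow_iff p hx _).1 this
  omega

theorem lz_star (x : LQ) : lz p (star x) = lz p x := by
  unfold lz ka
  rw [nn_star, cont_star]

theorem lz_prim {x : LQ} (h : ¬ Dv p x) : lz p x = padicValNat p (nn x) := by
  unfold lz
  rw [ka_prim p h]; simp

theorem lz_mul {x y : LQ} (hx : ¬ Dv p x) (hy : ¬ Dv p y) :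
    lz p (x * y) = lz p x + lz p y - 2 * ka p (x * y) := by
  have hx0 : x ≠ 0 := by rintro rfl; exact hx (by simp [Dv])
  have hy0 : y ≠ 0 := by rintro rfl; exact hy (by simp [Dv])
  rw [lz_prim p hx, lz_prim p hy]
  unfold lz
  rw [nn_mul, padicValNat.mul (nn_ne_zero hx0) (nn_ne_zero hy0)]
  push_cast
  ring

theorem key_id (x y z e : LQ) :
    (2 * (z.re * e.re + z.imI * e.imI + z.imJ * e.imJ + z.imK * e.imK)) • (star x * y) =
      (star x * z) * (star e * y) + (star x * e) * (star z * y) := by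
  ext <;> simp only [Quaternion.re_smul, Quaternion.imI_smul, Quaternion.imJ_smul, Quaternion.imK_smul,
    smul_eq_mul, Quaternion.re_mul, Quaternion.imI_mul, Quaternion.imJ_mul, Quaternion.imK_mul,
    Quaternion.re_add, Quaternion.imI_add, Quaternion.imJ_add, Quaternion.imK_add,
    Quaternion.re_sub, Quaternion.imI_sub, Quaternion.imJ_sub, Quaternion.imK_sub,
    Quaternion.re_star, Quaternion.imI_star, Quaternion.imJ_star, Quaternion.imK_star,
    Quaternion.re_one, Quaternion.imI_one, Quaternion.imJ_one, Quaternion.imK_one] <;> ring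

theorem ka_four (h2 : p ≠ 2) {x y z : LQ} (hx : x ≠ 0) (hy : y ≠ 0) (hz : ¬ Dv p z) :
    min (ka p (star x * z)) (ka p (star z * y)) ≤ ka p (star x * y) := by
  have hz0 : z ≠ 0 := by rintro rfl; exact hz (by simp [Dv])
  have s0 : ∀ w : LQ, w ≠ 0 → star w ≠ 0 := fun w hw => by simpa using hw
  set m := min (ka p (star x * z)) (ka p (star z * y)) with hm
  have a1 := (Dv_pow_iff p (mul_ne_zero' (s0 x hx) hz0) m).2 (min_le_left _ _)
  have a2 := (Dv_pow_iff p (mul_ne_zero' (s0 z hz0) hy) m).2 (min_le_right _ _)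
  rw [← Dv_pow_iff p (mul_ne_zero' (s0 x hx) hy)]
  have pp : Prime (p : ℤ) := Nat.prime_iff_prime_int.1 hp.out
  have k : ∀ e : LQ, ¬ (p : ℤ) ∣ (z.re * e.re + z.imI * e.imI + z.imJ * e.imJ + z.imK * e.imK) →
      Dv ((p : ℤ) ^ m) (star x * y) := by
    intro e he
    have b := (a1.mul_right (star e * y)).add (a2.mul_left (star x * e))
    rw [← key_id] at b
    refine b.of_smul (IsCoprime.pow_left ?_)
    rw [pp.coprime_iff_not_dvd]
    intro hd
    rcases pp.dvd_or_dvd hd with h | h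
    · have : p ∣ 2 := by exact_mod_cast h
      exact h2 ((Nat.prime_dvd_prime_iff_eq hp.out Nat.prime_two).1 this)
    · exact he h
  unfold Dv at hz
  simp only [not_and_or] at hz
  rcases hz with h | h | h | h
  · exact k ⟨1, 0, 0, 0⟩ (by simpa using h)
  · exact k ⟨0, 1, 0, 0⟩ (by simpa using h)
  · exact k ⟨0, 0, 1, 0⟩ (by simpa using h)
  · exact k ⟨0, 0, 0, 1⟩ (by simpa using h)

end

theorem dec3 : ∀ a b c d : ZMod 3, a ^ 2 + b ^ 2 + c ^ 2 + d ^ 2 = 0 →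
    ∃ q ∈ ([(1, -1, -1, 0), (1, -1, 0, -1), (1, -1, 0, 1), (1, -1, 1, 0)] : List (ℤ × ℤ × ℤ × ℤ)),
      (q.1 : ZMod 3) * a + q.2.1 * b + q.2.2.1 * c + q.2.2.2 * d = 0 ∧
      (q.1 : ZMod 3) * b - q.2.1 * a - q.2.2.1 * d + q.2.2.2 * c = 0 ∧
      (q.1 : ZMod 3) * c + q.2.1 * d - q.2.2.1 * a - q.2.2.2 * b = 0 ∧
      (q.1 : ZMod 3) * d - q.2.1 * c + q.2.2.1 * b - q.2.2.2 * a = 0 := by
  decide +kernel

theorem dec5 : ∀ a b c d : ZMod 5, a ^ 2 + b ^ 2 + c ^ 2 + d ^ 2 = 0 →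
    ∃ q ∈ ([(2, -1, 0, 0), (2, 0, -1, 0), (2, 0, 0, -1), (2, 0, 0, 1), (2, 0, 1, 0),
      (2, 1, 0, 0)] : List (ℤ × ℤ × ℤ × ℤ)),
      (q.1 : ZMod 5) * a + q.2.1 * b + q.2.2.1 * c + q.2.2.2 * d = 0 ∧
      (q.1 : ZMod 5) * b - q.2.1 * a - q.2.2.1 * d + q.2.2.2 * c = 0 ∧
      (q.1 : ZMod 5) * c + q.2.1 * d - q.2.2.1 * a - q.2.2.2 * b = 0 ∧
      (q.1 : ZMod 5) * d - q.2.1 * c + q.2.2.1 * b - q.2.2.2 * a = 0 := by
  decide +kernel

theorem Dv_of_zmod (p : ℕ) (x : LQ) (q : ℤ × ℤ × ℤ × ℤ)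
    (h : (q.1 : ZMod p) * x.re + q.2.1 * x.imI + q.2.2.1 * x.imJ + q.2.2.2 * x.imK = 0 ∧
      (q.1 : ZMod p) * x.imI - q.2.1 * x.re - q.2.2.1 * x.imK + q.2.2.2 * x.imJ = 0 ∧
      (q.1 : ZMod p) * x.imJ + q.2.1 * x.imK - q.2.2.1 * x.re - q.2.2.2 * x.imI = 0 ∧
      (q.1 : ZMod p) * x.imK - q.2.1 * x.imJ + q.2.2.1 * x.imI - q.2.2.2 * x.re = 0) :
    Dv p (star (qq q.1 q.2.1 q.2.2.1 q.2.2.2) * x) := by
  obtain ⟨h1, h2, h3, h4⟩ := h
  refine ⟨?_, ?_, ?_, ?_⟩ <;> rw [← ZMod.intCast_zmod_eq_zero_iff_dvd] <;> simp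
  · linear_combination h1
  · linear_combination h2
  · linear_combination h3
  · linear_combination h4

theorem fac3 (x : LQ) (h : 3 ∣ nn x) : ∃ q : LQ, nn q = 3 ∧ Dv (3 : ℕ) (star q * x) := by
  have h1 : ((3 : ℕ) : ℤ) ∣ nn x := by exact_mod_cast h
  rw [nn_cast, ← ZMod.intCast_zmod_eq_zero_iff_dvd] at h1
  push_cast at h1
  obtain ⟨q, hq, h2⟩ := dec3 _ _ _ _ h1
  refine ⟨_, ?_, Dv_of_zmod 3 x q h2⟩
  have : (nn (qq q.1 q.2.1 q.2.2.1 q.2.2.2) : ℤ) = 3 := by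
    rw [nn_cast]
    simp only [List.mem_cons, List.not_mem_nil, or_false] at hq
    rcases hq with rfl | rfl | rfl | rfl <;> norm_num
  exact_mod_cast this

theorem fac5 (x : LQ) (h : 5 ∣ nn x) : ∃ q : LQ, nn q = 5 ∧ Dv (5 : ℕ) (star q * x) := by
  have h1 : ((5 : ℕ) : ℤ) ∣ nn x := by exact_mod_cast h
  rw [nn_cast, ← ZMod.intCast_zmod_eq_zero_iff_dvd] at h1
  push_cast at h1
  obtain ⟨q, hq, h2⟩ := dec5 _ _ _ _ h1
  refine ⟨_, ?_, Dv_of_zmod 5 x q h2⟩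
  have : (nn (qq q.1 q.2.1 q.2.2.1 q.2.2.2) : ℤ) = 5 := by
    rw [nn_cast]
    simp only [List.mem_cons, List.not_mem_nil, or_false] at hq
    rcases hq with rfl | rfl | rfl | rfl | rfl | rfl <;> norm_num
  exact_mod_cast this

theorem pow_form (x : LQ) (p : ℕ) (h1 : x.re = 1) (h2 : nn x = p) (n : ℕ) :
    ∃ y : LQ, x ^ (n + 1) = ((2 : ℤ) ^ n) • x + (p : ℤ) • y := by
  have hx : x * x = (2 : ℤ) • x - (p : ℤ) • (1 : LQ) := by
    rw [← h2, nn_cast]
    ext <;> simp only [Quaternion.re_smul, Quaternion.imI_smul, Quaternion.imJ_smul, Quaternion.imK_smul,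
    smul_eq_mul, Quaternion.re_mul, Quaternion.imI_mul, Quaternion.imJ_mul, Quaternion.imK_mul,
    Quaternion.re_add, Quaternion.imI_add, Quaternion.imJ_add, Quaternion.imK_add,
    Quaternion.re_sub, Quaternion.imI_sub, Quaternion.imJ_sub, Quaternion.imK_sub,
    Quaternion.re_star, Quaternion.imI_star, Quaternion.imJ_star, Quaternion.imK_star,
    Quaternion.re_one, Quaternion.imI_one, Quaternion.imJ_one, Quaternion.imK_one, h1] <;> ring
  induction n with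
  | zero => exact ⟨0, by simp⟩
  | succ n ih =>
    obtain ⟨y, hy⟩ := ih
    refine ⟨y * x - ((2 : ℤ) ^ n) • (1 : LQ), ?_⟩
    rw [pow_succ, hy, add_mul, smul_mul_assoc, hx, smul_mul_assoc, smul_sub, smul_sub, smul_smul,
      smul_smul, smul_smul, pow_succ, mul_comm ((p : ℤ)) (2 ^ n)]
    abel

theorem lz_pow (p : ℕ) [hp : Fact p.Prime] (h2 : p ≠ 2) (x : LQ) (h1 : x.re = 1) (hn : nn x = p)
    (n : ℕ) : lz p (x ^ (n + 1)) = n + 1 := by
  have pp : Prime (p : ℤ) := Nat.prime_iff_prime_int.1 hp.out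
  have : ¬ Dv p (x ^ (n + 1)) := by
    intro h
    obtain ⟨y, hy⟩ := pow_form x p h1 hn n
    have := h.1
    rw [hy] at this
    simp only [Quaternion.re_add, Quaternion.re_smul, smul_eq_mul, h1, mul_one] at this
    have h3 : (p : ℤ) ∣ 2 ^ n := (dvd_add_left (dvd_mul_right _ _)).1 this
    have h4 : p ∣ 2 := by exact_mod_cast pp.dvd_of_dvd_pow h3
    exact h2 ((Nat.prime_dvd_prime_iff_eq hp.out Nat.prime_two).1 h4)
  rw [lz_prim p this]
  have e : ∀ k, nn (x ^ k) = p ^ k := by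
    intro k
    induction k with
    | zero => simp [nn_one]
    | succ k ih => rw [pow_succ, nn_mul, ih, hn, pow_succ]
  rw [e, padicValNat.prime_pow]
  push_cast
  rfl

end Pool.Agent.H841Z.Mal
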